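import Mathlib
import Pool.Agent.Work.MP_308fa9_nt.Defs

set_option autoImplicit false

/-!
Quadratic twists `t y² = g(x) h(x)` of a hyperelliptic curve, `g` and `h` monic of even degree, their
adelic points and the pairing with the constant quaternion algebras `(g, c)` and `(h, c)`.
The two polynomials are `q false` and `q true`.
-/

namespace Stoll308.GF

open Polynomial

/-- A point over the field `F` of the smooth projective curve `C_t : t y² = g(x) h(x)`, `g h` monic
of even degree: an affine point or one of the points at infinity, which are defined over `F` if and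
only if `t` is a square in `F`. -/
inductive Point (q : Bool → ℤ[X]) (t : ℤ) (F : Type*) [Field F] : Type _
  | aff (x y : F) (h : (t : F) * y ^ 2 = aeval x (q false) * aeval x (q true)) : Point q t F
  | inf (s : F) (h : (t : F) = s ^ 2) : Point q t F

variable {q : Bool → ℤ[X]} {t : ℤ}

open Classical in
/-- The value at `P`, up to squares, of the function `q b` of the curve: at an affine point it is
`q_b(x)` if this is not `0` and otherwise `t` times the value of the other polynomial; at infinity
it is `1`. -/
noncomputable def Point.eval {F : Type*} [Field F] (P : Point q t F) (b : Bool) : F :=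
  match P with
  | .aff x _ _ => if aeval x (q b) ≠ 0 then aeval x (q b) else (t : F) * aeval x (q !b)
  | .inf _ _ => 1

/-- An adelic point of `C_t`: a point over `ℝ` and a point over `ℚ_p` for every prime `p`. -/
structure AdelicPoint (q : Bool → ℤ[X]) (t : ℤ) where
  real : Point q t ℝ
  padic : ∀ (p : ℕ) [Fact p.Prime], Point q t ℚ_[p]

/-- The primes `p` at which the quaternion algebra `(q_b, c)`, evaluated at the adelic point `P`,
does not split. -/
def AdelicPoint.ramified (P : AdelicPoint q t) (b : Bool) (c : ℤ) : Set ℕ :=
  {p : ℕ | ∃ _ : Fact p.Prime, ¬ Splits ((P.padic p).eval b) (c : ℚ_[p])}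

/-- The adelic point `P` is orthogonal to the quaternion algebra `(q_b, c)` of the function field
of `C_t` (unramified on `C_t`): the local invariants at `P` sum to zero, that is, the number of
places, the real one included, at which the algebra evaluated at `P` is not split is finite and
even. -/
def AdelicPoint.Orthogonal (P : AdelicPoint q t) (b : Bool) (c : ℤ) : Prop :=
  (P.ramified b c).Finite ∧ (Even (P.ramified b c).ncard ↔ Splits (P.real.eval b) (c : ℝ))

/-- `C_t` has points over every completion of `ℚ`. -/
def ELS (q : Bool → ℤ[X]) (t : ℤ) : Prop := Nonempty (AdelicPoint q t)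

/-- Some adelic point of `C_t` is orthogonal to all the quaternion algebras `(q_b, c)`, `c` a
nonzero integer. This holds if the Brauer-Manin set of `C_t` is nonempty. -/
def BMNonempty (q : Bool → ℤ[X]) (t : ℤ) : Prop :=
  ∃ P : AdelicPoint q t, ∀ (b : Bool) (c : ℤ), c ≠ 0 → P.Orthogonal b c

/-- The squarefree integers `t` with `|t| ≤ X` such that `C_t` has points everywhere locally. -/
def elsSet (q : Bool → ℤ[X]) (X : ℕ) : Set ℤ := {t | Squarefree t ∧ |t| ≤ X ∧ ELS q t}

/-- The squarefree integers `t` with `|t| ≤ X` such that some adelic point of `C_t` is orthogonal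
to all the `(q_b, c)`. -/
def bmSet (q : Bool → ℤ[X]) (X : ℕ) : Set ℤ := {t | Squarefree t ∧ |t| ≤ X ∧ BMNonempty q t}

/-- The Galois groups attached to the pair `q` of polynomials are as large as possible. There is a
finite Galois extension `L` of `ℚ` which contains the zeros `θ b i` of `q b` and square roots
`s b i` of the values at `θ b i` of the other polynomial and such that

* for each `b` every permutation of the zeros of `q b` together with arbitrary changes of signs of
  the square roots is induced by an automorphism of `L`;
* every pair of permutations of the zeros of `q false` and of the zeros of `q true` is induced by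
  an automorphism of `L`. -/
def Generic (q : Bool → ℤ[X]) : Prop :=
  ∃ (L : Type) (_ : Field L) (_ : NumberField L) (_ : IsGalois ℚ L)
    (θ s : (b : Bool) → Fin (q b).natDegree → L),
    (∀ b, (q b).map (Int.castRingHom L) = ∏ i, (X - C (θ b i))) ∧
    (∀ b i, s b i ^ 2 = aeval (θ b i) (q !b)) ∧
    (∀ (b : Bool) (π : Equiv.Perm (Fin (q b).natDegree)) (ε : Fin (q b).natDegree → ℤˣ),
      ∃ σ : L ≃ₐ[ℚ] L, ∀ i, σ (θ b i) = θ b (π i) ∧ σ (s b i) = (ε i : ℤ) * s b (π i)) ∧
    (∀ π : (b : Bool) → Equiv.Perm (Fin (q b).natDegree),
      ∃ σ : L ≃ₐ[ℚ] L, ∀ b i, σ (θ b i) = θ b (π b i))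

open Classical in
/-- The product of the good primes (those not dividing `N`) `p` dividing `t` with `j p = b`. -/
noncomputable def D (N : ℕ) (t : ℤ) (j : ℕ → Bool) (b : Bool) : ℕ :=
  ∏ p ∈ t.natAbs.primeFactors.filter (fun p : ℕ => ¬ p ∣ N ∧ j p = b), p

open Classical in
/-- Descent data for `t` away from the bad primes: every good prime `p` dividing `t` has a type
`j p` and a zero `θ` of `q_(j p)` modulo `p` such that the Legendre symbol modulo `p` of the value
of the other polynomial at `θ` is `ψ(p mod 8N)` times the Jacobi symbol of `p` modulo the product of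
the primes of the other type. -/
def Desc (q : Bool → ℤ[X]) (N : ℕ) (t : ℤ) : Prop :=
  ∃ (j : ℕ → Bool) (ψ : Bool → ℕ → ℤ), (∀ i n, ψ i n = 1 ∨ ψ i n = -1) ∧
    ∀ p : ℕ, p.Prime → ¬ p ∣ N → (p : ℤ) ∣ t →
      ∃ θ : ZMod p, aeval θ (q (j p)) = 0 ∧
        (if IsSquare (aeval θ (q !(j p))) then (1 : ℤ) else -1) =
          ψ (!(j p)) (p % (8 * N)) * jacobiSym p (D N t j (!(j p)))

/-- `N` is even and annihilates the common zeros of `q false` and `q true`. -/
def Bez (q : Bool → ℤ[X]) (N : ℕ) : Prop :=
  N ≠ 0 ∧ 2 ∣ N ∧ ∃ A B : ℤ[X], A * q false + B * q true = C (N : ℤ)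

end Stoll308.GF
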