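import Mathlib
import Pool.Agent.Work.MP_308fa9_nt.GF.Defs
import Pool.Agent.Work.MP_308fa9_nt.Descent

set_option autoImplicit false

/-!
Local analysis of a point of `t y² = g(x) h(x)` over `ℚ_p` at a good prime `p`.
-/

namespace Stoll308.GF

open Polynomial PadicInt

variable {q : Bool → ℤ[X]} {t : ℤ} {N : ℕ}

lemma Bez.not_both (hN : Bez q N) {K : Type*} [Field K] (hK : (N : K) ≠ 0) {x : K} {b : Bool}
    (h1 : aeval x (q b) = 0) (h2 : aeval x (q !b) = 0) : False := by
  obtain ⟨_, _, A, B, hAB⟩ := hN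
  have h3 := congrArg (aeval x) hAB
  rw [map_add, map_mul, map_mul, aeval_C] at h3
  apply hK
  have h4 : aeval x (q false) = 0 ∧ aeval x (q true) = 0 := by
    cases b
    · exact ⟨h1, h2⟩
    · exact ⟨h2, h1⟩
  rw [h4.1, h4.2, mul_zero, mul_zero, add_zero] at h3
  simpa using h3.symm

lemma eq_swap {F : Type*} [Field F] {x y : F} (b : Bool)
    (h : (t : F) * y ^ 2 = aeval x (q false) * aeval x (q true)) :
    (t : F) * y ^ 2 = aeval x (q b) * aeval x (q !b) := by
  cases b
  · exact h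
  · rw [h, mul_comm]; rfl

section padic

variable {p : ℕ} [hp : Fact p.Prime]

lemma two_ne (hN : Bez q N) (hpN : ¬ p ∣ N) : p ≠ 2 := by
  rintro rfl
  exact hpN hN.2.1

lemma cast_ne (hpN : ¬ p ∣ N) : ((N : ℕ) : ZMod p) ≠ 0 := by
  rwa [Ne, ZMod.natCast_eq_zero_iff]

lemma norm_int_one {n : ℤ} (h : ¬ (p : ℤ) ∣ n) : ‖(n : ℤ_[p])‖ = 1 := by
  rw [PadicInt.norm_intCast_eq_one_iff]
  exact (Int.isCoprime_iff_gcd_eq_one.2 (by
    rw [Int.gcd_comm]
    exact (Int.isCoprime_iff_gcd_eq_one.1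
      ((Nat.prime_iff_prime_int.1 hp.out).coprime_iff_not_dvd.2 h))))

lemma coe_ne_zero {e : ℤ_[p]} (he : ‖e‖ = 1) : (e : ℚ_[p]) ≠ 0 := by
  intro h
  rw [PadicInt.norm_def, h, norm_zero] at he
  exact zero_ne_one he

lemma coe_aeval (g : ℤ[X]) (x : ℤ_[p]) : ((aeval x g : ℤ_[p]) : ℚ_[p]) = aeval (x : ℚ_[p]) g := by
  have := Polynomial.aeval_algebraMap_apply ℚ_[p] x g
  exact this.symm

lemma toZMod_aeval (g : ℤ[X]) (x : ℤ_[p]) : toZMod (aeval x g) = aeval (toZMod x) g := by
  rw [aeval_def, aeval_def, hom_eval₂]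
  congr 1
  exact RingHom.ext_int _ _

/-- The value of a monic polynomial of even degree at a nonintegral point. -/
lemma val_large {g : ℤ[X]} (hg : g.Monic) (hev : Even g.natDegree) {x : ℚ_[p]} (hx : 1 < ‖x‖) :
    ∃ (e : ℤ_[p]) (w : ℚ_[p]), ‖e‖ = 1 ∧ toZMod e = 1 ∧ w ≠ 0 ∧ aeval x g = e * w ^ 2 := by
  have hx0 : x ≠ 0 := by
    rintro rfl
    rw [norm_zero] at hx
    linarith
  have hinv : ‖x⁻¹‖ < 1 := by
    rw [norm_inv]
    exact inv_lt_one_of_one_lt₀ hx
  set u : ℤ_[p] := ⟨x⁻¹, hinv.le⟩ with hu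
  have hu0 : toZMod u = 0 := by
    by_contra h
    have := norm_eq_one_iff_toZMod.2 h
    rw [PadicInt.norm_def] at this
    exact hinv.ne this
  have hux : (u : ℚ_[p]) = x⁻¹ := rfl
  obtain ⟨k, hk⟩ := hev
  have h1 : toZMod (aeval u g.reverse) = 1 := by
    rw [toZMod_aeval, hu0, ← coeff_zero_eq_aeval_zero']
    rw [coeff_zero_reverse, hg.leadingCoeff, map_one]
  refine ⟨aeval u g.reverse, x ^ k, norm_eq_one_iff_toZMod.2 (by rw [h1]; exact one_ne_zero), h1,
    pow_ne_zero _ hx0, ?_⟩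
  rw [coe_aeval, hux]
  have : Invertible x := invertibleOfNonzero hx0
  have h2 := eval₂_reverse_mul_pow (algebraMap ℤ ℚ_[p]) x g
  rw [invOf_eq_inv] at h2
  rw [aeval_def, aeval_def, ← h2, hk]
  ring

/-- Local analysis at a good prime not dividing `t`. -/
lemma local_unram (hmon : ∀ b, (q b).Monic) (hev : ∀ b, Even (q b).natDegree) (hN : Bez q N)
    (hpN : ¬ p ∣ N) (ht : ¬ (p : ℤ) ∣ t) (P : Point q t ℚ_[p]) (b : Bool) :
    ∃ (e : ℤ_[p]) (w : ℚ_[p]), ‖e‖ = 1 ∧ w ≠ 0 ∧ P.eval b = e * w ^ 2 := by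
  have htu := norm_int_one (p := p) ht
  cases P with
  | inf s h => exact ⟨1, 1, by simp, one_ne_zero, by simp [Point.eval]⟩
  | aff x y h =>
    by_cases hx : ‖x‖ ≤ 1
    · obtain ⟨x', hx'⟩ : ∃ x' : ℤ_[p], (x' : ℚ_[p]) = x := ⟨⟨x, hx⟩, rfl⟩
      subst hx'
      have h' := eq_swap b h
      by_cases hb : toZMod (aeval x' (q b)) = 0
      · -- the other value is a unit
        have hother : ‖(aeval x' (q !b) : ℤ_[p])‖ = 1 := by
          rw [norm_eq_one_iff_toZMod]
          intro h0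
          rw [toZMod_aeval] at hb h0
          exact hN.not_both (cast_ne hpN) hb h0
        have hne := coe_ne_zero hother
        rw [coe_aeval] at hne
        by_cases h0 : aeval (x' : ℚ_[p]) (q b) = 0
        · refine ⟨(t : ℤ_[p]) * aeval x' (q !b), 1, by rw [norm_mul, htu, hother, mul_one],
            one_ne_zero, ?_⟩
          simp only [Point.eval]
          rw [if_neg (not_not.2 h0)]
          push_cast
          rw [coe_aeval]
          ring
        · refine ⟨(t : ℤ_[p]) * aeval x' (q !b), y / aeval (x' : ℚ_[p]) (q !b),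
            by rw [norm_mul, htu, hother, mul_one], ?_, ?_⟩
          · apply div_ne_zero _ hne
            rintro rfl
            have : aeval (x' : ℚ_[p]) (q b) * aeval (x' : ℚ_[p]) (q !b) = 0 := by
              rw [← h']; ring
            rcases mul_eq_zero.1 this with h | h
            · exact h0 h
            · exact hne h
          · simp only [Point.eval]
            rw [if_pos h0]
            push_cast
            rw [coe_aeval]
            field_simp
            rw [h']
      · have h1 : ‖(aeval x' (q b) : ℤ_[p])‖ = 1 := norm_eq_one_iff_toZMod.2 hb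
        have hne := coe_ne_zero h1
        refine ⟨aeval x' (q b), 1, h1, one_ne_zero, ?_⟩
        rw [coe_aeval] at hne
        simp only [Point.eval]
        rw [if_pos hne, coe_aeval]
        ring
    · push Not at hx
      obtain ⟨e, w, he, _, hw, hew⟩ := val_large (hmon b) (hev b) hx
      refine ⟨e, w, he, hw, ?_⟩
      simp only [Point.eval]
      rw [if_pos, hew]
      rw [hew]
      exact mul_ne_zero (coe_ne_zero he) (pow_ne_zero _ hw)

lemma norm_sq_ne {e : ℤ_[p]} (he : ‖e‖ = 1) {w y : ℚ_[p]} {u : ℤ_[p]} (hu : ‖u‖ = 1) (hw : w ≠ 0)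
    (h : (p : ℚ_[p]) * u * y ^ 2 = e * w ^ 2) : False := by
  have h1 := congrArg norm h
  rw [norm_mul, norm_mul, norm_mul, norm_pow, norm_pow, ← PadicInt.norm_def, ← PadicInt.norm_def,
    he, hu, mul_one, one_mul, Padic.norm_p] at h1
  have hy : y ≠ 0 := by
    rintro rfl
    rw [norm_zero] at h1
    have : ‖w‖ ^ 2 ≠ 0 := pow_ne_zero _ (norm_ne_zero_iff.2 hw)
    apply this
    rw [← h1]; ring
  rw [Padic.norm_eq_zpow_neg_valuation hy, Padic.norm_eq_zpow_neg_valuation hw] at h1
  have hp1 : (1 : ℝ) < p := by exact_mod_cast hp.out.one_lt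
  have hp0 : (p : ℝ) ≠ 0 := by positivity
  have h5 : (p : ℝ) ^ (-1 - 2 * y.valuation) = (p : ℝ) ^ (-2 * w.valuation) := by
    rw [show (-1 - 2 * y.valuation : ℤ) = -1 + (-y.valuation) * 2 by ring,
      zpow_add₀ hp0, zpow_mul, zpow_neg_one,
      show (-2 * w.valuation : ℤ) = (-w.valuation) * 2 by ring, zpow_mul]
    exact_mod_cast h1
  have h6 := zpow_right_injective₀ (by positivity) hp1.ne' h5
  omega

/-- Local analysis at a good prime dividing `t`. -/
lemma local_ram (hmon : ∀ b, (q b).Monic) (hev : ∀ b, Even (q b).natDegree) (hN : Bez q N)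
    (hpN : ¬ p ∣ N) (hsq : Squarefree t) (ht : (p : ℤ) ∣ t) (P : Point q t ℚ_[p]) :
    ∃ (b : Bool) (θ : ZMod p), aeval θ (q b) = 0 ∧
      (∃ (e : ℤ_[p]) (w : ℚ_[p]), ‖e‖ = 1 ∧ w ≠ 0 ∧ P.eval b = (p : ℚ_[p]) * e * w ^ 2) ∧
      ∃ (e : ℤ_[p]) (w : ℚ_[p]), ‖e‖ = 1 ∧ w ≠ 0 ∧ P.eval (!b) = e * w ^ 2 ∧
        (IsSquare (toZMod e) ↔ IsSquare (aeval θ (q !b))) := by
  obtain ⟨t', ht'⟩ := ht
  have ht'p : ¬ (p : ℤ) ∣ t' := by
    rintro ⟨s, hs⟩
    have : (p : ℤ) * p ∣ t := ⟨s, by rw [ht', hs]; ring⟩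
    have h2 := hsq _ this
    exact (Nat.prime_iff_prime_int.1 hp.out).not_isUnit h2
  have ht'u : ‖(t' : ℤ_[p])‖ = 1 := norm_int_one ht'p
  have htc : (t : ℚ_[p]) = (p : ℚ_[p]) * ((t' : ℤ_[p]) : ℚ_[p]) := by
    have := congrArg (Int.cast : ℤ → ℚ_[p]) ht'
    push_cast at this ⊢
    exact this
  cases P with
  | inf s h =>
    exfalso
    rw [htc] at h
    have hs0 : s ≠ 0 := by
      rintro rfl
      have hp0 : (p : ℚ_[p]) ≠ 0 := by exact_mod_cast hp.out.ne_zero
      have := mul_ne_zero hp0 (coe_ne_zero ht'u)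
      apply this
      rw [h]; ring
    exact norm_sq_ne (p := p) (e := 1) (u := (t' : ℤ_[p])) (y := 1) (w := s) (by simp) ht'u hs0
      (by rw [h]; simp)
  | aff x y h =>
    by_cases hx : ‖x‖ ≤ 1
    · obtain ⟨x', hx'⟩ : ∃ x' : ℤ_[p], (x' : ℚ_[p]) = x := ⟨⟨x, hx⟩, rfl⟩
      subst hx'
      -- some value is not a unit
      obtain ⟨b, hb⟩ : ∃ b, toZMod (aeval x' (q b)) = 0 := by
        by_contra hcon
        push Not at hcon
        have h1 : ∀ b, ‖(aeval x' (q b) : ℤ_[p])‖ = 1 := fun b => norm_eq_one_iff_toZMod.2 (hcon b)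
        refine norm_sq_ne (p := p) (e := aeval x' (q false) * aeval x' (q true))
          (u := (t' : ℤ_[p])) (y := y) (w := 1) (by rw [norm_mul, h1, h1, mul_one]) ht'u
          one_ne_zero ?_
        rw [← htc, h]
        push_cast
        rw [coe_aeval, coe_aeval]
        ring
      have hother : ‖(aeval x' (q !b) : ℤ_[p])‖ = 1 := by
        rw [norm_eq_one_iff_toZMod]
        intro h0
        rw [toZMod_aeval] at hb h0
        exact hN.not_both (cast_ne hpN) hb h0
      have hne := coe_ne_zero hother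
      rw [coe_aeval] at hne
      have h' := eq_swap b h
      refine ⟨b, toZMod x', by rw [← toZMod_aeval]; exact hb, ?_, ?_⟩
      · by_cases h0 : aeval (x' : ℚ_[p]) (q b) = 0
        · refine ⟨(t' : ℤ_[p]) * aeval x' (q !b), 1, by rw [norm_mul, ht'u, hother, mul_one],
            one_ne_zero, ?_⟩
          simp only [Point.eval]
          rw [if_neg (not_not.2 h0), htc, PadicInt.coe_mul, coe_aeval]
          ring
        · refine ⟨(t' : ℤ_[p]) * aeval x' (q !b), y / aeval (x' : ℚ_[p]) (q !b),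
            by rw [norm_mul, ht'u, hother, mul_one], ?_, ?_⟩
          · apply div_ne_zero _ hne
            rintro rfl
            have : aeval (x' : ℚ_[p]) (q b) * aeval (x' : ℚ_[p]) (q !b) = 0 := by
              rw [← h']; ring
            rcases mul_eq_zero.1 this with h | h
            · exact h0 h
            · exact hne h
          · simp only [Point.eval]
            rw [if_pos h0, PadicInt.coe_mul, coe_aeval, ← mul_assoc, ← htc]
            field_simp
            rw [h']
      · refine ⟨aeval x' (q !b), 1, hother, one_ne_zero, ?_, by rw [toZMod_aeval]⟩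
        simp only [Point.eval]
        rw [if_pos hne, coe_aeval]
        ring
    · exfalso
      push Not at hx
      obtain ⟨e, w, he, _, hw, hew⟩ := val_large (hmon false) (hev false) hx
      obtain ⟨e', w', he', _, hw', hew'⟩ := val_large (hmon true) (hev true) hx
      refine norm_sq_ne (p := p) (e := e * e') (u := (t' : ℤ_[p])) (y := y) (w := w * w')
        (by rw [norm_mul, he, he', mul_one]) ht'u (mul_ne_zero hw hw') ?_
      rw [← htc, h, hew, hew']
      push_cast
      ring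

end padic

end Stoll308.GF
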