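import Mathlib
import Pool.Agent.Work.MP_308fa9_nt.GF.Local

set_option autoImplicit false

/-!
An adelic point orthogonal to all the quaternion algebras `(q_b, c)` gives descent data.
-/

namespace Stoll308.GF

open Polynomial PadicInt Finset

variable {q : Bool → ℤ[X]} {t : ℤ} {N : ℕ}

set_option maxHeartbeats 2000000 in
/-- **Descent.** -/
theorem desc_of_bm (hmon : ∀ b, (q b).Monic) (hev : ∀ b, Even (q b).natDegree) (hN : Bez q N)
    (hsq : Squarefree t) (h : BMNonempty q t) : Desc q N t := by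
  classical
  obtain ⟨P, hP⟩ := h
  have hN0 : N ≠ 0 := hN.1
  let good : ℕ → Prop := fun p => ∃ _ : Fact p.Prime, ¬ p ∣ N ∧ (p : ℤ) ∣ t
  have hex : ∀ p : ℕ, ∃ j : Bool, good p → ∃ _ : Fact p.Prime, ∃ (θ : ZMod p),
      aeval θ (q j) = 0 ∧
      (∃ (e : ℤ_[p]) (w : ℚ_[p]), ‖e‖ = 1 ∧ w ≠ 0 ∧
        (P.padic p).eval j = (p : ℚ_[p]) * e * w ^ 2) ∧
      ∃ (e : ℤ_[p]) (w : ℚ_[p]), ‖e‖ = 1 ∧ w ≠ 0 ∧ (P.padic p).eval (!j) = e * w ^ 2 ∧
        (IsSquare (toZMod e) ↔ IsSquare (aeval θ (q !j))) := by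
    intro p
    by_cases hg : good p
    · obtain ⟨hp, hb, ht⟩ := hg
      obtain ⟨j, θ, h1, h2, h3⟩ := local_ram hmon hev hN hb hsq ht (P.padic p)
      exact ⟨j, fun _ => ⟨hp, θ, h1, h2, h3⟩⟩
    · exact ⟨false, fun h => absurd h hg⟩
  choose j hj using hex
  -- the contribution of the bad primes
  let ψ : Bool → ℕ → ℤ := fun i n =>
    ∏ l ∈ N.primeFactors, sg (∃ _ : Fact l.Prime,
      ¬ Splits ((P.padic l).eval i) ((n : ℕ) : ℚ_[l]))
  refine ⟨j, ψ, ?_, ?_⟩
  · intro i n
    have : ∀ s : Finset ℕ, (∏ l ∈ s, sg (∃ _ : Fact l.Prime,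
        ¬ Splits ((P.padic l).eval i) ((n : ℕ) : ℚ_[l])) = 1 ∨
        ∏ l ∈ s, sg (∃ _ : Fact l.Prime,
        ¬ Splits ((P.padic l).eval i) ((n : ℕ) : ℚ_[l])) = -1) := by
      intro s
      induction s using Finset.induction_on with
      | empty => left; simp
      | insert a s ha ih =>
        rw [prod_insert ha]
        rcases sg_eq (∃ _ : Fact a.Prime,
          ¬ Splits ((P.padic a).eval i) ((n : ℕ) : ℚ_[a])) with h | h <;>
        rcases ih with h' | h' <;> rw [h, h'] <;> norm_num
    exact this _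
  intro p hpp hb ht
  have hp : Fact p.Prime := ⟨hpp⟩
  obtain ⟨hp', θ, hθ, hjp, hother⟩ := hj p ⟨hp, hb, ht⟩
  have hp2 : p ≠ 2 := two_ne hN hb
  refine ⟨θ, hθ, ?_⟩
  set i : Bool := !(j p) with hidef
  have hij : i ≠ j p := by rw [hidef]; cases j p <;> simp
  obtain ⟨hfin, heven⟩ := hP i (p : ℤ) (by exact_mod_cast hpp.ne_zero)
  have hreal : Splits (P.real.eval i) ((p : ℤ) : ℝ) := by
    refine ⟨0, 1, Real.sqrt p, Or.inr (Or.inl one_ne_zero), ?_⟩
    rw [Real.sq_sqrt (Nat.cast_nonneg p)]
    push_cast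
    ring
  have heven' : Even (P.ramified i (p : ℤ)).ncard := heven.2 hreal
  -- the places that may be ramified
  set Dset := t.natAbs.primeFactors.filter (fun l : ℕ => ¬ l ∣ N ∧ j l = i) with hDset
  have hpD : p ∉ Dset := by
    rw [hDset, mem_filter]
    rintro ⟨-, -, h⟩
    exact hij h.symm
  have hpB : p ∉ N.primeFactors := by
    intro h
    exact hb (Nat.dvd_of_mem_primeFactors h)
  have hdisj : Disjoint N.primeFactors Dset := by
    rw [disjoint_left]
    intro l hl hlD
    rw [hDset, mem_filter] at hlD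
    exact hlD.2.1 (Nat.dvd_of_mem_primeFactors hl)
  have hsub : P.ramified i (p : ℤ) ⊆
      ((insert p (N.primeFactors ∪ Dset) : Finset ℕ) : Set ℕ) := by
    rintro l ⟨hl, hns⟩
    by_contra hcon
    rw [mem_coe, mem_insert, mem_union, not_or, not_or] at hcon
    obtain ⟨hlp, hlB, hlD⟩ := hcon
    have hlb : ¬ l ∣ N := by
      intro h
      apply hlB
      rw [Nat.mem_primeFactors]
      exact ⟨hl.out, h, hN0⟩
    have hl2 : l ≠ 2 := two_ne hN hlb
    apply hns
    have hpu : ‖((p : ℤ) : ℤ_[l])‖ = 1 := by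
      have : Nat.Coprime l p := (Nat.coprime_primes hl.out hpp).2 hlp
      have h2 := PadicInt.norm_natCast_eq_one_iff (p := l) (n := p)
      push_cast
      exact h2.2 this
    have key : ∃ (e : ℤ_[l]) (w : ℚ_[l]), ‖e‖ = 1 ∧ w ≠ 0 ∧ (P.padic l).eval i = e * w ^ 2 := by
      by_cases hlt : (l : ℤ) ∣ t
      · obtain ⟨_, θ', _, _, h3⟩ := hj l ⟨hl, hlb, hlt⟩
        have hji : i = !(j l) := by
          have hne : j l ≠ i := by
            intro h
            apply hlD
            rw [hDset, mem_filter, Nat.mem_primeFactors]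
            exact ⟨⟨hl.out, Int.natCast_dvd.1 hlt, by simpa using hsq.ne_zero⟩, hlb, h⟩
          revert hne
          cases i <;> cases j l <;> simp
        rw [← hji] at h3
        obtain ⟨e, w, he, hw, hew, -⟩ := h3
        exact ⟨e, w, he, hw, hew⟩
      · exact local_unram hmon hev hN hlb hlt (P.padic l) i
    obtain ⟨e, w, he, hw, hew⟩ := key
    rw [hew, splits_mul_sq hw]
    have := splits_units hl2 he hpu
    push_cast at this ⊢
    exact this
  have hprod := prod_sg_of_even _ hsub heven'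
  rw [prod_insert (by rw [mem_union, not_or]; exact ⟨hpB, hpD⟩), prod_union hdisj] at hprod
  -- the place `p`
  have e1 : sg (p ∈ P.ramified i (p : ℤ)) = sg (¬ IsSquare (aeval θ (q i))) := by
    apply sg_congr
    obtain ⟨e, w, he, hw, hew, hiff⟩ := hother
    have h1 : Splits ((P.padic p).eval i) ((p : ℤ) : ℚ_[p]) ↔ IsSquare (aeval θ (q i)) := by
      rw [hew, splits_mul_sq hw, splits_comm, ← hiff]
      have := splits_prime_unit hp2 (e := 1) (c := e) (by simp) he
      rw [← this]
      push_cast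
      rw [mul_one]
    constructor
    · rintro ⟨_, h⟩
      rwa [h1] at h
    · intro h
      exact ⟨hp, by rwa [h1]⟩
  -- the bad places
  have e2 : ∏ l ∈ N.primeFactors, sg (l ∈ P.ramified i (p : ℤ)) = ψ i (p % (8 * N)) := by
    refine prod_congr rfl fun l hl => ?_
    apply sg_congr
    have hlp := Nat.prime_of_mem_primeFactors hl
    have hlfact : Fact l.Prime := ⟨hlp⟩
    have hlb := Nat.dvd_of_mem_primeFactors hl
    have hne : l ≠ p := by
      rintro rfl
      exact hpB hl
    have hQ : 8 * l ∣ 8 * N := Nat.mul_dvd_mul_left 8 hlb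
    have hcop' : Nat.Coprime p l := (Nat.coprime_primes hpp hlp).2 hne.symm
    obtain ⟨w, hw, hw2⟩ := sq_ratio (l := l) (m := p) (n := p % (8 * N)) hQ (Nat.mod_mod _ _) hcop'
    have h1 : Splits ((P.padic l).eval i) ((p : ℤ) : ℚ_[l]) ↔
        Splits ((P.padic l).eval i) ((p % (8 * N) : ℕ) : ℚ_[l]) := by
      rw [hw2, splits_mul_sq' hw]
      push_cast
      rfl
    constructor
    · rintro ⟨h, hh⟩
      exact ⟨h, by rwa [h1] at hh⟩
    · rintro ⟨h, hh⟩
      exact ⟨h, by rwa [h1]⟩
  -- the primes of `D_i`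
  have e3 : ∏ l ∈ Dset, sg (l ∈ P.ramified i (p : ℤ)) = jacobiSym p (D N t j i) := by
    have h1 : D N t j i = ∏ l ∈ Dset, l := rfl
    have h2 : ∀ s : Finset ℕ, s ⊆ Dset → ∏ l ∈ s, sg (l ∈ P.ramified i (p : ℤ)) =
        jacobiSym p (∏ l ∈ s, l) := by
      intro s
      induction s using Finset.induction_on with
      | empty => intro _; simp
      | insert l s hl ih =>
        intro hs
        have hlD := hs (mem_insert_self l s)
        have hsD : s ⊆ Dset := fun x hx => hs (mem_insert_of_mem hx)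
        rw [prod_insert hl, prod_insert hl, ih hsD]
        rw [hDset, mem_filter] at hlD
        obtain ⟨hlt, hlb, hlj⟩ := hlD
        have hlp := Nat.prime_of_mem_primeFactors hlt
        have : Fact l.Prime := ⟨hlp⟩
        have hl2 : l ≠ 2 := two_ne hN hlb
        have hne : l ≠ p := by
          rintro rfl
          exact hij hlj.symm
        have hndvd : ¬ l ∣ p := by
          intro h
          exact hne ((Nat.prime_dvd_prime_iff_eq hlp hpp).1 h)
        rw [jacobiSym.mul_right', jacobi_eq_sg hndvd]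
        · congr 1
          apply sg_congr
          obtain ⟨_, θ', _, ⟨e, w, he, hw, hew⟩, _⟩ := hj l ⟨‹Fact l.Prime›, hlb,
            Int.natCast_dvd.2 (Nat.dvd_of_mem_primeFactors hlt)⟩
          rw [hlj] at hew
          have hpu : ‖((p : ℕ) : ℤ_[l])‖ = 1 :=
            PadicInt.norm_natCast_eq_one_iff.2 ((Nat.coprime_primes hlp hpp).2 hne)
          have h1 : Splits ((P.padic l).eval i) ((p : ℤ) : ℚ_[l]) ↔
              IsSquare ((p : ℕ) : ZMod l) := by
            rw [hew, splits_mul_sq hw]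
            have := splits_prime_unit hl2 he hpu
            rw [map_natCast] at this
            rw [← this]
            push_cast
            rfl
          constructor
          · rintro ⟨_, hh⟩
            rwa [h1] at hh
          · intro hh
            exact ⟨‹Fact l.Prime›, by rwa [h1]⟩
        · exact hlp.ne_zero
        · exact prod_ne_zero_iff.2 fun x hx => (Nat.prime_of_mem_primeFactors
            (mem_filter.1 (hsD hx)).1).ne_zero
    rw [h1, h2 _ subset_rfl]
  rw [e1, e2, e3] at hprod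
  rw [ite_eq_sg]
  have h6 := sg_mul_self (¬ IsSquare (aeval θ (q i)))
  calc sg (¬ IsSquare (aeval θ (q i))) = sg (¬ IsSquare (aeval θ (q i))) * 1 := by rw [mul_one]
    _ = sg (¬ IsSquare (aeval θ (q i))) * (sg (¬IsSquare (aeval θ (q i))) *
      (ψ i (p % (8 * N)) * jacobiSym (↑p) (D N t j i))) := by rw [hprod]
    _ = _ := by rw [← mul_assoc, h6, one_mul]

end Stoll308.GF
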