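import Mathlib
import Pool.Agent.Work.MP_308fa9_nt.GF.Descent
import Pool.Agent.Work.MP_308fa9_nt.FCount2

set_option autoImplicit false

/-!
The number of pairs `(D, E)` satisfying the descent conditions.
-/

namespace Stoll308.GF

open Finset NumberTheorySymbols Tuples Linked HT MeanSum Filter Stoll308.Core Polynomial

variable {q : Bool → ℤ[X]} {N : ℕ}

open Classical in
/-- the polynomial `q b` has a root modulo `p` at which the other one is a square -/
noncomputable def iP (q : Bool → ℤ[X]) (b : Bool) (p : ℕ) : ℝ :=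
  if ∃ θ : ZMod p, aeval θ (q b) = 0 ∧ IsSquare (aeval θ (q !b)) then 1 else 0

open Classical in
/-- the polynomial `q b` has a root modulo `p` at which the other one is not a square -/
noncomputable def iM (q : Bool → ℤ[X]) (b : Bool) (p : ℕ) : ℝ :=
  if ∃ θ : ZMod p, aeval θ (q b) = 0 ∧ ¬ IsSquare (aeval θ (q !b)) then 1 else 0

open Classical in
/-- the polynomial `q b` has a root modulo `p` -/
noncomputable def iR (q : Bool → ℤ[X]) (b : Bool) (p : ℕ) : ℝ :=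
  if ∃ θ : ZMod p, aeval θ (q b) = 0 then 1 else 0

lemma iP_mem (b : Bool) (p : ℕ) : iP q b p = 0 ∨ iP q b p = 1 := by
  unfold iP; split_ifs <;> simp

lemma iM_mem (b : Bool) (p : ℕ) : iM q b p = 0 ∨ iM q b p = 1 := by
  unfold iM; split_ifs <;> simp

/-- the mean of the two indicators -/
noncomputable def wA (q : Bool → ℤ[X]) (b : Bool) (p : ℕ) : ℝ := (iP q b p + iM q b p) / 2

/-- half of the difference of the two indicators -/
noncomputable def wB (q : Bool → ℤ[X]) (b : Bool) (p : ℕ) : ℝ := (iP q b p - iM q b p) / 2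

lemma wA_nonneg (b : Bool) (p : ℕ) : 0 ≤ wA q b p := by
  unfold wA
  rcases iP_mem (q := q) b p with h | h <;> rcases iM_mem (q := q) b p with h' | h' <;>
    rw [h, h'] <;> norm_num

lemma wA_le (b : Bool) (p : ℕ) : wA q b p ≤ 1 := by
  unfold wA
  rcases iP_mem (q := q) b p with h | h <;> rcases iM_mem (q := q) b p with h' | h' <;>
    rw [h, h'] <;> norm_num

lemma abs_wB_le (b : Bool) (p : ℕ) : |wB q b p| ≤ wA q b p := by
  unfold wA wB
  rcases iP_mem (q := q) b p with h | h <;> rcases iM_mem (q := q) b p with h' | h' <;>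
    rw [h, h', abs_le] <;> norm_num

/-- the sign of quadratic reciprocity, given whether the other number is `3` modulo `4` -/
def sgn (r : Bool) (p : ℕ) : ℤ := if r = true ∧ p % 4 = 3 then -1 else 1

lemma sgn_mem (r : Bool) (p : ℕ) : sgn r p = 1 ∨ sgn r p = -1 := by
  unfold sgn; split_ifs <;> simp

/-- the weights -/
noncomputable def wG (q : Bool → ℤ[X]) (N : ℕ) (ψ : Bool → ℕ → ℤ) (ρ : Bool → Bool)
    (v : Bool × Bool) (p : ℕ) : ℝ :=
  if p ∣ N then 0 else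
    if v.2 then ((ψ (!v.1) (p % (8 * N)) * sgn (ρ (!v.1)) p : ℤ) : ℝ) * wB q v.1 p
    else wA q v.1 p

variable {ψ : Bool → ℕ → ℤ} {ρ : Bool → Bool}

lemma abs_wG_le (hψ : ∀ i n, ψ i n = 1 ∨ ψ i n = -1) (v : Bool × Bool) (p : ℕ) :
    |wG q N ψ ρ v p| ≤ wA q v.1 p := by
  have h0 := wA_nonneg (q := q) v.1 p
  unfold wG
  split_ifs with h1 h2
  · rw [abs_zero]; exact h0
  · rw [abs_mul]
    have h3 : |((ψ (!v.1) (p % (8 * N)) * sgn (ρ (!v.1)) p : ℤ) : ℝ)| = 1 := by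
      rcases hψ (!v.1) (p % (8 * N)) with h | h <;> rcases sgn_mem (ρ (!v.1)) p with h' | h' <;>
        rw [h, h'] <;> norm_num
    rw [h3, one_mul]
    exact abs_wB_le _ _
  · rw [abs_of_nonneg h0]

lemma abs_mul_jac (x : ℝ) (a : ℤ) (b : ℕ) : |x * ((J(a | b) : ℤ) : ℝ)| ≤ |x| := by
  rw [abs_mul]
  exact mul_le_of_le_one_right (abs_nonneg _) (Bilin.abs_jacobi_le_one _ _)

lemma factor_nonneg (hψ : ∀ i n, ψ i n = 1 ∨ ψ i n = -1) (b : Bool) (p : ℕ) (a : ℤ) :
    0 ≤ wG q N ψ ρ (b, false) p + wG q N ψ ρ (b, true) p * ((J(a | p) : ℤ) : ℝ) := by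
  have h1 := (abs_le.1 (abs_mul_jac (wG q N ψ ρ (b, true) p) a p)).1
  have h2 := abs_wG_le (q := q) (N := N) (ρ := ρ) hψ (b, true) p
  by_cases hp : p ∣ N
  · unfold wG
    rw [if_pos hp, if_pos hp]
    simp
  · have h3 : wG q N ψ ρ (b, false) p = wA q b p := by
      unfold wG
      rw [if_neg hp]
      simp
    rw [h3]
    simp only at h2
    linarith

lemma WW_nonneg (hψ : ∀ i n, ψ i n = 1 ∨ ψ i n = -1) (D E : ℕ) :
    0 ≤ WW (wG q N ψ ρ) D E := by
  unfold WW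
  split_ifs
  · exact mul_nonneg (prod_nonneg fun p _ => factor_nonneg hψ _ _ _)
      (prod_nonneg fun p _ => factor_nonneg hψ _ _ _)
  · exact le_rfl

open Classical in
/-- the conditions on the pair `(D, E) = (f false, f true)` -/
def PD (q : Bool → ℤ[X]) (N : ℕ) (ψ : Bool → ℕ → ℤ) (ρ : Bool → Bool) (f : Bool → ℕ) : Prop :=
  (∀ b, ρ b = true ↔ f b % 4 = 3) ∧ ∀ b, ∀ p : ℕ, p.Prime → p ∣ f b → ¬ p ∣ N ∧
    ∃ θ : ZMod p, aeval θ (q b) = 0 ∧ (if IsSquare (aeval θ (q !b)) then (1 : ℤ) else -1) =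
      ψ (!b) (p % (8 * N)) * jacobiSym p (f (!b))

lemma recip {F p : ℕ} (hF : Odd F) (hp : Odd p) {r : Bool} (hr : r = true ↔ F % 4 = 3) :
    jacobiSym p F = sgn r p * jacobiSym F p := by
  have hF4 : F % 4 = 1 ∨ F % 4 = 3 := by
    have := Nat.odd_iff.1 hF; omega
  have hp4 : p % 4 = 1 ∨ p % 4 = 3 := by
    have := Nat.odd_iff.1 hp; omega
  unfold sgn
  rcases hF4 with h | h
  · have : ¬ (r = true ∧ p % 4 = 3) := fun h' => by
      have := hr.1 h'.1
      omega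
    rw [if_neg this, one_mul]
    exact jacobiSym.quadratic_reciprocity_one_mod_four' hp h
  · rcases hp4 with h' | h'
    · rw [if_neg (by omega), one_mul]
      exact jacobiSym.quadratic_reciprocity_one_mod_four h' hF
    · rw [if_pos ⟨hr.2 h, h'⟩, neg_one_mul]
      exact jacobiSym.quadratic_reciprocity_three_mod_four h' h

lemma PD.odd (h2 : 2 ∣ N) {f : Bool → ℕ} (h : PD q N ψ ρ f) (b : Bool) : Odd (f b) := by
  rw [← Nat.not_even_iff_odd, even_iff_two_dvd]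
  intro h3
  exact (h.2 b 2 Nat.prime_two h3).1 h2

lemma factor_eq_one (h2 : 2 ∣ N) {f : Bool → ℕ} (h : PD q N ψ ρ f) (b : Bool) {p : ℕ}
    (hp : p.Prime) (hpd : p ∣ f b) : wG q N ψ ρ (b, false) p +
      wG q N ψ ρ (b, true) p * ((J((f (!b) : ℤ) | p) : ℤ) : ℝ) = 1 := by
  obtain ⟨hpN, θ, hθ, hsq⟩ := h.2 b p hp hpd
  have hpodd : Odd p := by
    rw [← Nat.not_even_iff_odd, even_iff_two_dvd]
    intro h3
    have := (Nat.prime_dvd_prime_iff_eq Nat.prime_two hp).1 h3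
    exact hpN (this ▸ h2)
  have h0 : wG q N ψ ρ (b, false) p = wA q b p := by
    unfold wG
    rw [if_neg hpN]
    simp
  have h1 : wG q N ψ ρ (b, true) p = ((ψ (!b) (p % (8 * N)) * sgn (ρ (!b)) p : ℤ) : ℝ) * wB q b p := by
    unfold wG
    rw [if_neg hpN]
    simp
  rw [recip (h.odd h2 (!b)) hpodd (h.1 (!b)), ← mul_assoc] at hsq
  have h3 := congrArg (Int.cast : ℤ → ℝ) hsq
  rw [Int.cast_mul] at h3
  rw [h0, h1]
  have h4 : ((ψ (!b) (p % (8 * N)) * sgn (ρ (!b)) p : ℤ) : ℝ) * wB q b p *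
      ((J((f (!b) : ℤ) | p) : ℤ) : ℝ) = (((ψ (!b) (p % (8 * N)) * sgn (ρ (!b)) p : ℤ) : ℝ) *
      ((J((f (!b) : ℤ) | p) : ℤ) : ℝ)) * wB q b p := by ring
  rw [h4, ← h3]
  unfold wA wB
  by_cases hs : IsSquare (aeval θ (q !b))
  · rw [if_pos hs]
    have : iP q b p = 1 := by
      unfold iP
      exact if_pos ⟨θ, hθ, hs⟩
    rw [this]
    push_cast
    ring
  · rw [if_neg hs]
    have : iM q b p = 1 := by
      unfold iM
      exact if_pos ⟨θ, hθ, hs⟩
    rw [this]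
    push_cast
    ring

lemma WW_eq_one (h2 : 2 ∣ N) {f : Bool → ℕ} (hsq : Squarefree (f false * f true))
    (h : PD q N ψ ρ f) : WW (wG q N ψ ρ) (f false) (f true) = 1 := by
  unfold WW
  rw [if_pos ⟨hsq, (h.odd h2 false).mul (h.odd h2 true)⟩]
  have e1 : ∏ p ∈ (f false).primeFactors, (wG q N ψ ρ (false, false) p +
      wG q N ψ ρ (false, true) p * ((J((f true : ℤ) | p) : ℤ) : ℝ)) = 1 :=
    prod_eq_one fun p hp => factor_eq_one h2 h false (Nat.prime_of_mem_primeFactors hp)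
      (Nat.dvd_of_mem_primeFactors hp)
  have e2 : ∏ p ∈ (f true).primeFactors, (wG q N ψ ρ (true, false) p +
      wG q N ψ ρ (true, true) p * ((J((f false : ℤ) | p) : ℤ) : ℝ)) = 1 :=
    prod_eq_one fun p hp => factor_eq_one h2 h true (Nat.prime_of_mem_primeFactors hp)
      (Nat.dvd_of_mem_primeFactors hp)
  rw [e1, e2, mul_one]

open Classical in
/-- both members large -/
lemma region_C (h2 : 2 ∣ N) (hψ : ∀ i n, ψ i n = 1 ∨ ψ i n = -1) {κ : ℝ} (hκ : 0 ≤ κ)
    (hmean : ∃ C : ℝ, ∀ X : ℕ, 3 ≤ X → ∑ p ∈ PR X, (wA q false p + wA q true p) / p ≤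
      κ * Real.log (Real.log X) + C) {η : ℝ} (hη : 0 < η) :
    ∃ C : ℝ, 0 < C ∧ ∀ Y : ℕ, 3 ≤ Y →
      (((TX Bool Y).filter (fun f => ((zz (Bool × Bool) Y) ^ 2 < f false ∧
        (zz (Bool × Bool) Y) ^ 2 < f true) ∧ Squarefree (f false * f true) ∧
        PD q N ψ ρ f)).card : ℝ) ≤ C * (Y * Real.log Y ^ (κ - 1 + η)) := by
  obtain ⟨C0, hC0⟩ := hmean
  obtain ⟨C, hC, h⟩ := pair_bound (w := wG q N ψ ρ)
    (fun v p _ => (abs_wG_le hψ v p).trans (wA_le _ _)) (κ₀ := κ) hκ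
    ⟨C0, fun X hX => by
      refine le_trans (sum_le_sum fun p _ => div_le_div_of_nonneg_right ?_ (Nat.cast_nonneg _))
        (hC0 X hX)
      exact add_le_add (abs_wG_le hψ _ p) (abs_wG_le hψ _ p)⟩
    ⟨C0, fun X hX => by
      refine le_trans (sum_le_sum fun p _ => div_le_div_of_nonneg_right ?_ (Nat.cast_nonneg _))
        (hC0 X hX)
      exact add_le_add (abs_wG_le hψ _ p) (abs_wG_le hψ _ p)⟩ hη
  refine ⟨C, hC, fun Y hY => le_trans ?_ (h Y hY)⟩
  rw [card_filter]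
  push_cast
  refine sum_le_sum fun f _ => ?_
  by_cases hz : (zz (Bool × Bool) Y) ^ 2 < f false ∧ (zz (Bool × Bool) Y) ^ 2 < f true
  · rw [if_pos hz]
    by_cases hd : Squarefree (f false * f true) ∧ PD q N ψ ρ f
    · rw [if_pos ⟨hz, hd⟩, WW_eq_one h2 hd.1 hd.2]
    · rw [if_neg (fun h => hd h.2)]
      exact WW_nonneg hψ _ _
  · rw [if_neg hz, if_neg (fun h => hz h.1)]

open Classical in
/-- one member small -/
lemma region_A {κ : ℝ} (hκ : 0 ≤ κ) (i : Bool)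
    (hroot : ∃ C : ℝ, ∀ X : ℕ, 3 ≤ X → ∑ p ∈ PR X, iR q (!i) p / p ≤
      κ * Real.log (Real.log X) + C) :
    ∃ C : ℝ, 0 < C ∧ ∀ Y z : ℕ, 3 ≤ z → z ^ 8 ≤ Y →
      (((TX Bool Y).filter (fun f => f i ≤ z ^ 2 ∧ Squarefree (f false * f true) ∧
        PD q N ψ ρ f)).card : ℝ) ≤
      C * (Y * Real.log Y ^ (κ - 1)) * Real.log z ^ 2 := by
  obtain ⟨C1, h1⟩ := hroot
  obtain ⟨C, hC, h⟩ := strip_bound (κ := κ) (C₀ := C1) hκ
    (fun _ => True) (fun _ p => ∃ θ : ZMod p, aeval θ (q !i) = 0) (by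
      intro a ha _ X hX
      have h3 := h1 X hX
      have ha1 : (1 : ℝ) ≤ a := by exact_mod_cast ha
      have hl3 : 1 ≤ Real.log (a + 3) := by
        have h1 : Real.log (Real.exp 1) ≤ Real.log (a + 3) :=
          Real.log_le_log (Real.exp_pos 1) (by have := Real.exp_one_lt_d9; linarith)
        rwa [Real.log_exp] at h1
      have hll : 0 ≤ Real.log (Real.log (a + 3)) := Real.log_nonneg hl3
      unfold iR at h3
      linarith)
  refine ⟨C, hC, fun Y z hz hY => le_trans ?_ (h Y z hz hY)⟩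
  rw [← Nat.cast_sum]
  norm_cast
  refine card_strip _ (z ^ 2) i _ _ fun f hf => ?_
  obtain ⟨hf1, hf2, hsq, hpd⟩ := mem_filter.1 hf
  rw [Core.mem_TX, Fintype.prod_bool] at hf1
  refine ⟨hf1.1 i, hf2, trivial, ?_⟩
  rw [mem_filter, mem_Icc]
  refine ⟨⟨hf1.1 (!i), ?_⟩, hsq.squarefree_of_dvd ?_, fun p hp hpd' => ?_⟩
  · rw [Nat.le_div_iff_mul_le (hf1.1 i)]
    have := hf1.2
    cases i
    · exact this
    · rw [mul_comm]; exact this
  · cases i
    · exact dvd_mul_left _ _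
    · exact dvd_mul_right _ _
  · obtain ⟨_, θ, hθ, _⟩ := hpd.2 (!i) p hp hpd'
    exact ⟨θ, hθ⟩

open Classical in
/-- **The number of pairs satisfying the descent conditions.** -/
theorem desc_count (h2 : 2 ∣ N) (hψ : ∀ i n, ψ i n = 1 ∨ ψ i n = -1) {κ : ℝ} (hκ : 0 ≤ κ)
    (hmean : ∃ C : ℝ, ∀ X : ℕ, 3 ≤ X → ∑ p ∈ PR X, (wA q false p + wA q true p) / p ≤
      κ * Real.log (Real.log X) + C)
    (hroot : ∀ b, ∃ C : ℝ, ∀ X : ℕ, 3 ≤ X → ∑ p ∈ PR X, iR q b p / p ≤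
      κ * Real.log (Real.log X) + C) {η : ℝ} (hη : 0 < η) :
    ∃ C : ℝ, 0 < C ∧ ∀ Y : ℕ, 3 ≤ Y →
      (((TX Bool Y).filter (fun f => Squarefree (f false * f true) ∧
        PD q N ψ ρ f)).card : ℝ) ≤ C * (Y * Real.log Y ^ (κ - 1 + η)) := by
  obtain ⟨CA, hCA, hA⟩ := region_A (q := q) (N := N) (ψ := ψ) (ρ := ρ) hκ false (hroot _)
  obtain ⟨CB, hCB, hB⟩ := region_A (q := q) (N := N) (ψ := ψ) (ρ := ρ) hκ true (hroot _)
  obtain ⟨CC, hCC, hC⟩ := region_C (q := q) (N := N) (ψ := ψ) (ρ := ρ) h2 hψ hκ hmean hη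
  obtain ⟨Cz, hCz, hz⟩ := log_zz (Bool × Bool) hη
  obtain ⟨Y₀, hY₀⟩ := zz_small (Bool × Bool)
  refine extend_small (N := fun Y => (((TX Bool Y).filter (fun f =>
        Squarefree (f false * f true) ∧ PD q N ψ ρ f)).card : ℝ))
    (F := fun Y => (Y * Real.log Y ^ (κ - 1 + η))) (fun Y hY => ?_)
    ⟨CA * Cz + CB * Cz + CC, by positivity, Y₀, fun Y hY hY3 => ?_⟩
  · have := one_le_log3 hY
    have h3 : (0 : ℝ) < Y := by exact_mod_cast (by omega : 0 < Y)
    have h4 : 0 < Real.log Y := by linarith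
    positivity
  · have hlY := one_le_log3 hY3
    have hlY0 : 0 < Real.log Y := by linarith
    set z := zz (Bool × Bool) Y with hzdef
    have hz3 : 3 ≤ z := zz_ge _ hY3
    have hz8 : z ^ 8 ≤ Y := hY₀ Y hY hY3
    have h1 := hA Y z hz3 hz8
    have h2 := hB Y z hz3 hz8
    have h3 := hC Y hY3
    have h4 := hz Y hY3
    have hcard : ((TX Bool Y).filter (fun f => Squarefree (f false * f true) ∧
        PD q N ψ ρ f)).card ≤
        ((TX Bool Y).filter (fun f => f false ≤ z ^ 2 ∧ Squarefree (f false * f true) ∧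
          PD q N ψ ρ f)).card +
        ((TX Bool Y).filter (fun f => f true ≤ z ^ 2 ∧ Squarefree (f false * f true) ∧
          PD q N ψ ρ f)).card +
        ((TX Bool Y).filter (fun f => (z ^ 2 < f false ∧ z ^ 2 < f true) ∧
          Squarefree (f false * f true) ∧ PD q N ψ ρ f)).card := by
      refine le_trans (card_le_card ?_) ((card_union_le _ _).trans
        (Nat.add_le_add_right (card_union_le _ _) _))
      intro f hf
      rw [mem_filter] at hf
      rw [mem_union, mem_union, mem_filter, mem_filter, mem_filter]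
      rcases le_or_gt (f false) (z ^ 2) with h5 | h5
      · exact Or.inl (Or.inl ⟨hf.1, h5, hf.2⟩)
      rcases le_or_gt (f true) (z ^ 2) with h6 | h6
      · exact Or.inl (Or.inr ⟨hf.1, h6, hf.2⟩)
      · exact Or.inr ⟨hf.1, ⟨h5, h6⟩, hf.2⟩
    have hcard' : (((TX Bool Y).filter (fun f => Squarefree (f false * f true) ∧
        PD q N ψ ρ f)).card : ℝ) ≤
        (((TX Bool Y).filter (fun f => f false ≤ z ^ 2 ∧ Squarefree (f false * f true) ∧
          PD q N ψ ρ f)).card : ℝ) +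
        (((TX Bool Y).filter (fun f => f true ≤ z ^ 2 ∧ Squarefree (f false * f true) ∧
          PD q N ψ ρ f)).card : ℝ) +
        (((TX Bool Y).filter (fun f => (z ^ 2 < f false ∧ z ^ 2 < f true) ∧
          Squarefree (f false * f true) ∧ PD q N ψ ρ f)).card : ℝ) := by
      exact_mod_cast hcard
    have h5 : Real.log Y ^ (κ - 1) * Real.log z ^ 2 ≤
        Cz * Real.log Y ^ (κ - 1 + η) := by
      calc Real.log Y ^ (κ - 1) * Real.log z ^ 2
          ≤ Real.log Y ^ (κ - 1) * (Cz * Real.log Y ^ η) :=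
            mul_le_mul_of_nonneg_left h4 (Real.rpow_nonneg hlY0.le _)
        _ = _ := by rw [Real.rpow_add hlY0]; ring
    have hY0 : (0 : ℝ) ≤ Y := Nat.cast_nonneg Y
    have h6 : ∀ K : ℝ, 0 ≤ K → K * (Y * Real.log Y ^ (κ - 1)) * Real.log z ^ 2 ≤
        K * Cz * (Y * Real.log Y ^ (κ - 1 + η)) := by
      intro K hK
      calc K * (Y * Real.log Y ^ (κ - 1)) * Real.log z ^ 2
          = K * Y * (Real.log Y ^ (κ - 1) * Real.log z ^ 2) := by ring
        _ ≤ K * Y * (Cz * Real.log Y ^ (κ - 1 + η)) :=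
            mul_le_mul_of_nonneg_left h5 (by positivity)
        _ = _ := by ring
    have h7 := h6 CA hCA.le
    have h8 := h6 CB hCB.le
    rw [add_mul, add_mul]
    linarith

end Stoll308.GF
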