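import Mathlib
import Pool.Agent.Work.MP_308fa9_nt.GF.Count

set_option autoImplicit false

/-!
The number of twists with an adelic point orthogonal to all the `(q_b, c)`.
-/

namespace Stoll308.GF

open Finset NumberTheorySymbols Linked MeanSum Stoll308.Core Polynomial

variable {q : Bool → ℤ[X]} {N : ℕ} {t : ℤ}

/-- signs from a finite table -/
def toψ (N : ℕ) (c : Bool → Fin (8 * N) → Bool) (i : Bool) (n : ℕ) : ℤ :=
  if h : n < 8 * N then (if c i ⟨n, h⟩ then -1 else 1) else 1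

lemma toψ_mem (N : ℕ) (c : Bool → Fin (8 * N) → Bool) (i : Bool) (n : ℕ) :
    toψ N c i n = 1 ∨ toψ N c i n = -1 := by
  unfold toψ; split_ifs <;> simp

lemma exists_pair (hN : Bez q N) (hsq : Squarefree t) {X : ℕ} (htX : |t| ≤ X)
    (h : Desc q N t) : ∃ s ∈ Icc (-(N : ℤ)) N, ∃ (c : Bool → Fin (8 * N) → Bool)
      (ρ : Bool → Bool), ∃ f ∈ TX Bool X, (Squarefree (f false * f true) ∧
        PD q N (toψ N c) ρ f) ∧ t = s * ((f false * f true : ℕ) : ℤ) := by
  classical
  obtain ⟨j, ψ, hψ, hD⟩ := h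
  have hN0 : 0 < N := Nat.pos_of_ne_zero hN.1
  set f : Bool → ℕ := fun b => D N t j b with hf
  set s₀ : ℕ := ∏ p ∈ t.natAbs.primeFactors.filter (fun p => p ∣ N), p with hs₀
  have hsqn : Squarefree t.natAbs := Int.squarefree_natAbs.2 hsq
  have hprod : t.natAbs = s₀ * (f false * f true) := by
    have h1 : t.natAbs = ∏ p ∈ t.natAbs.primeFactors, p :=
      (Nat.prod_primeFactors_of_squarefree hsqn).symm
    conv_lhs => rw [h1]
    rw [← prod_filter_mul_prod_filter_not t.natAbs.primeFactors (fun p => p ∣ N)]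
    congr 1
    rw [← prod_filter_mul_prod_filter_not (t.natAbs.primeFactors.filter (fun p => ¬ p ∣ N))
      (fun p => j p = false), filter_filter, filter_filter]
    simp only [hf, D]
    congr 1
    apply prod_congr _ fun _ _ => rfl
    ext p
    simp only [mem_filter]
    constructor
    · rintro ⟨h1, h2, h3⟩
      refine ⟨h1, h2, ?_⟩
      cases hj : j p
      · exact absurd hj h3
      · rfl
    · rintro ⟨h1, h2, h3⟩
      exact ⟨h1, h2, by rw [h3]; simp⟩
  have hs₀N : s₀ ∣ N := by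
    rw [hs₀]
    apply Finset.prod_primes_dvd
    · intro p hp
      rw [mem_filter] at hp
      exact (Nat.prime_of_mem_primeFactors hp.1).prime
    · intro p hp
      rw [mem_filter] at hp
      exact hp.2
  have hs₀le : s₀ ≤ N := Nat.le_of_dvd hN0 hs₀N
  have hfpos : ∀ b, 1 ≤ f b := by
    intro b
    simp only [hf, D]
    apply Nat.one_le_iff_ne_zero.2
    rw [prod_ne_zero_iff]
    intro p hp
    rw [mem_filter] at hp
    exact (Nat.prime_of_mem_primeFactors hp.1).ne_zero
  have hfdvd : f false * f true ∣ t.natAbs := hprod ▸ dvd_mul_left _ _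
  have hmem : ∀ b, ∀ p : ℕ, p.Prime → p ∣ f b → ¬ p ∣ N ∧ (p : ℤ) ∣ t ∧ j p = b := by
    intro b p hp hpd
    simp only [hf, D] at hpd
    rw [(Nat.Prime.prime hp).dvd_finsetProd_iff] at hpd
    obtain ⟨l, hl, hpl⟩ := hpd
    rw [mem_filter] at hl
    have := (Nat.prime_dvd_prime_iff_eq hp (Nat.prime_of_mem_primeFactors hl.1)).1 hpl
    subst this
    exact ⟨hl.2.1, Int.natCast_dvd.2 (Nat.dvd_of_mem_primeFactors hl.1), hl.2.2⟩
  refine ⟨t.sign * s₀, ?_, fun i n => decide (ψ i n = -1), fun b => decide (f b % 4 = 3), f, ?_,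
    ⟨?_, ?_, ?_⟩, ?_⟩
  · rw [mem_Icc]
    have h2 : (s₀ : ℤ) ≤ N := by exact_mod_cast hs₀le
    have h3 : (0 : ℤ) ≤ s₀ := Int.natCast_nonneg _
    rcases Int.sign_trichotomy t with h | h | h <;> rw [h] <;> constructor <;> linarith
  · rw [Core.mem_TX, Fintype.prod_bool]
    refine ⟨hfpos, ?_⟩
    have h1 : t.natAbs ≤ X := by
      have : ((t.natAbs : ℕ) : ℤ) ≤ X := by rw [Int.natCast_natAbs]; exact htX
      exact_mod_cast this
    rw [mul_comm]
    exact (Nat.le_of_dvd (Int.natAbs_pos.2 hsq.ne_zero) hfdvd).trans h1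
  · exact hsqn.squarefree_of_dvd hfdvd
  · intro b
    simp
  · intro b p hp hpd
    obtain ⟨h1, h2, h3⟩ := hmem b p hp hpd
    obtain ⟨θ, hθ, hs⟩ := hD p hp h1 h2
    rw [h3] at hθ hs
    refine ⟨h1, θ, hθ, ?_⟩
    have h4 : toψ N (fun i n => decide (ψ i n = -1)) (!b) (p % (8 * N)) = ψ (!b) (p % (8 * N)) := by
      unfold toψ
      rw [dif_pos (Nat.mod_lt _ (by omega))]
      rcases hψ (!b) (p % (8 * N)) with h | h <;> simp [h]
    rw [h4]
    convert hs
  · rw [mul_assoc]
    have h1 : ((s₀ : ℤ) * ((f false * f true : ℕ) : ℤ)) = t.natAbs := by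
      rw [hprod]; push_cast; ring
    rw [h1, Int.sign_mul_natAbs]

open Classical in
/-- the squarefree `t`, `|t| ≤ X`, for which some adelic point is orthogonal to all the
`(q_b, c)` -/
noncomputable def bmF (q : Bool → ℤ[X]) (X : ℕ) : Finset ℤ :=
  (Icc (-(X : ℤ)) X).filter fun t => Squarefree t ∧ BMNonempty q t

/-- **The upper bound.** -/
theorem bm_le (hmon : ∀ b, (q b).Monic) (hev : ∀ b, Even (q b).natDegree) (hN : Bez q N)
    {κ : ℝ} (hκ : 0 ≤ κ)
    (hmean : ∃ C : ℝ, ∀ X : ℕ, 3 ≤ X → ∑ p ∈ PR X, (wA q false p + wA q true p) / p ≤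
      κ * Real.log (Real.log X) + C)
    (hroot : ∀ b, ∃ C : ℝ, ∀ X : ℕ, 3 ≤ X → ∑ p ∈ PR X, iR q b p / p ≤
      κ * Real.log (Real.log X) + C) {η : ℝ} (hη : 0 < η) :
    ∃ C : ℝ, 0 < C ∧ ∀ X : ℕ, 3 ≤ X →
      ((bmF q X).card : ℝ) ≤ C * (X * Real.log X ^ (κ - 1 + η)) := by
  classical
  have hcount := fun (c : Bool → Fin (8 * N) → Bool) (ρ : Bool → Bool) =>
    desc_count (q := q) (N := N) (ψ := toψ N c) (ρ := ρ) hN.2.1 (toψ_mem N c) hκ hmean hroot hη
  choose C hC hcount using hcount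
  refine ⟨∑ s ∈ Icc (-(N : ℤ)) N, ∑ c : Bool → Fin (8 * N) → Bool, ∑ ρ : Bool → Bool, C c ρ, ?_,
    fun X hX => ?_⟩
  · apply sum_pos
    · intro s _
      apply sum_pos
      · intro c _
        apply sum_pos
        · intro ρ _
          exact hC c ρ
        · exact univ_nonempty
      · exact univ_nonempty
    · exact ⟨0, by rw [mem_Icc]; constructor <;> [exact neg_nonpos.2 (Int.natCast_nonneg _); exact Int.natCast_nonneg _]⟩
  · have hsub : bmF q X ⊆ (Icc (-(N : ℤ)) N).biUnion fun s =>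
        (univ : Finset (Bool → Fin (8 * N) → Bool)).biUnion fun c =>
          (univ : Finset (Bool → Bool)).biUnion fun ρ =>
            ((TX Bool X).filter (fun f => Squarefree (f false * f true) ∧
              PD q N (toψ N c) ρ f)).image fun f => s * ((f false * f true : ℕ) : ℤ) := by
      intro t ht
      unfold bmF at ht
      rw [mem_filter, mem_Icc] at ht
      obtain ⟨s, hs, c, ρ, f, hf, hf2, htf⟩ := exists_pair hN ht.2.1 (abs_le.2 ht.1)
        (desc_of_bm hmon hev hN ht.2.1 ht.2.2)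
      rw [mem_biUnion]
      refine ⟨s, hs, ?_⟩
      rw [mem_biUnion]
      refine ⟨c, mem_univ _, ?_⟩
      rw [mem_biUnion]
      refine ⟨ρ, mem_univ _, ?_⟩
      rw [mem_image]
      exact ⟨f, mem_filter.2 ⟨hf, hf2⟩, htf.symm⟩
    have h1 : ((bmF q X).card : ℝ) ≤ ∑ s ∈ Icc (-(N : ℤ)) N, ∑ c : Bool → Fin (8 * N) → Bool,
        ∑ ρ : Bool → Bool, (((TX Bool X).filter (fun f => Squarefree (f false * f true) ∧
              PD q N (toψ N c) ρ f)).card : ℝ) := by
      have h2 : (bmF q X).card ≤ ∑ s ∈ Icc (-(N : ℤ)) N, ∑ c : Bool → Fin (8 * N) → Bool,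
        ∑ ρ : Bool → Bool, ((TX Bool X).filter (fun f => Squarefree (f false * f true) ∧
              PD q N (toψ N c) ρ f)).card := by
        refine (card_le_card hsub).trans (card_biUnion_le.trans (sum_le_sum fun s _ => ?_))
        refine card_biUnion_le.trans (sum_le_sum fun c _ => ?_)
        refine card_biUnion_le.trans (sum_le_sum fun ρ _ => ?_)
        exact card_image_le
      exact_mod_cast h2
    refine h1.trans ?_
    rw [sum_mul]
    refine sum_le_sum fun s _ => ?_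
    rw [sum_mul]
    refine sum_le_sum fun c _ => ?_
    rw [sum_mul]
    exact sum_le_sum fun ρ _ => hcount c ρ X hX

end Stoll308.GF
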