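import Mathlib
import Pool.Agent.Work.MP_308fa9_nt.GF.Upper
import Pool.Agent.Work.MP_308fa9_nt.ChebE

set_option autoImplicit false

/-!
The means of the weights in terms of the Galois group.
-/

namespace Stoll308.GF

open Finset NumberField Polynomial MeanSum Stoll308.Cheb Pool.Agent.Work.MP_2b9663_nt

variable {q : Bool → ℤ[X]}

/-- A number field containing the zeros of `q false` and `q true` and square roots of the values of
one polynomial at the zeros of the other. -/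
structure Roots (q : Bool → ℤ[X]) (L : Type) [Field L] [NumberField L] where
  θ : (b : Bool) → Fin (q b).natDegree → 𝓞 L
  s : (b : Bool) → Fin (q b).natDegree → 𝓞 L
  fac : ∀ b, (q b).map (Int.castRingHom (𝓞 L)) = ∏ i, (X - C (θ b i))
  sq : ∀ b i, s b i ^ 2 = aeval (θ b i) (q !b)
  inj : ∀ b, Function.Injective (θ b)
  ne : ∀ b i, s b i ≠ 0

variable {L : Type} [Field L] [NumberField L] (r : Roots q L)

namespace Roots

lemma smul_aeval (σ : L ≃ₐ[ℚ] L) (x : 𝓞 L) (f : ℤ[X]) : σ • (aeval x f) = aeval (σ • x) f := by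
  have h5 : (MulSemiringAction.toRingHom (L ≃ₐ[ℚ] L) (𝓞 L) σ).comp
          (algebraMap ℤ (𝓞 L)) = algebraMap ℤ (𝓞 L) := RingHom.ext_int _ _
  have h4 := hom_eval₂ f (algebraMap ℤ (𝓞 L)) (MulSemiringAction.toRingHom (L ≃ₐ[ℚ] L) (𝓞 L) σ) x
  rw [h5] at h4
  exact h4

lemma aeval_eq_zero_iff (b : Bool) (x : 𝓞 L) : aeval x (q b) = 0 ↔ ∃ i, x = r.θ b i := by
  have h1 : aeval x (q b) = ∏ i, (x - r.θ b i) := by
    rw [aeval_def, show (algebraMap ℤ (𝓞 L)) = Int.castRingHom (𝓞 L) from RingHom.ext_int _ _,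
      ← eval_map, r.fac b, eval_prod]
    simp
  rw [h1, prod_eq_zero_iff]
  simp only [mem_univ, true_and, sub_eq_zero]

/-- the zeros are permuted -/
lemma exists_smul (b : Bool) (σ : L ≃ₐ[ℚ] L) (i : Fin (q b).natDegree) :
    ∃ j, σ • r.θ b i = r.θ b j := by
  rw [← r.aeval_eq_zero_iff, ← smul_aeval, (r.aeval_eq_zero_iff b (r.θ b i)).2 ⟨i, rfl⟩,
    smul_zero]

lemma smul_s (b : Bool) (σ : L ≃ₐ[ℚ] L) {i j : Fin (q b).natDegree}
    (h : σ • r.θ b i = r.θ b j) : σ • r.s b i = r.s b j ∨ σ • r.s b i = -r.s b j := by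
  rw [← sq_eq_sq_iff_eq_or_eq_neg, ← smul_pow', r.sq, r.sq, smul_aeval, h]

end Roots

section frob

variable {p : ℕ} [hp : Fact p.Prime] {P : Ideal (𝓞 L)} {σ : L ≃ₐ[ℚ] L}

omit [NumberField L] in
lemma sub_mem_of_aeval {P : Ideal (𝓞 L)} {x y : 𝓞 L} (h : x - y ∈ P) (f : ℤ[X]) :
    aeval x f - aeval y f ∈ P := by
  have h1 : x - y ∣ aeval x f - aeval y f := by
    rw [aeval_def, aeval_def, ← eval_map, ← eval_map]
    exact sub_dvd_eval_sub x y _
  exact P.mem_of_dvd h1 h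

lemma aeval_int (K : Type*) [CommRing K] (n : ℤ) (f : ℤ[X]) :
    aeval (n : K) f = ((f.eval n : ℤ) : K) := by
  rw [aeval_def, eval₂_eq_eval_map]
  have := eval_intCast_map (algebraMap ℤ K) f n
  rw [this]
  simp

lemma isSquare_iff (hσ : IsFrob L p P σ) (hp2 : p ≠ 2) (b : Bool) (i : Fin (q b).natDegree)
    (hs : r.s b i ∉ P) (hfix : σ • r.θ b i = r.θ b i) {n : ℤ} (hn : r.θ b i - n ∈ P) :
    IsSquare (aeval (n : ZMod p) (q !b)) ↔ σ • r.s b i = r.s b i := by
  have hpr := hσ.prime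
  have h0 : aeval (r.θ b i) (q !b) - ((((q !b).eval n : ℤ)) : 𝓞 L) ∈ P := by
    rw [← aeval_int]
    exact sub_mem_of_aeval hn _
  rw [← r.sq] at h0
  rw [aeval_int]
  constructor
  · rintro ⟨k, hk⟩
    obtain ⟨k, rfl⟩ := ZMod.intCast_surjective k
    rw [← sub_eq_zero, ← Int.cast_mul, ← Int.cast_sub, ZMod.intCast_zmod_eq_zero_iff_dvd,
      ← hσ.int_mem] at hk
    have h1 : (r.s b i - k) * (r.s b i + k) ∈ P := by
      have : (r.s b i - k) * (r.s b i + k) = (r.s b i ^ 2 - (((q !b).eval n : ℤ) : 𝓞 L)) +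
        (((q !b).eval n - k * k : ℤ) : 𝓞 L) := by push_cast; ring
      rw [this]
      exact P.add_mem h0 hk
    have h2 : ∃ m : ℤ, r.s b i - m ∈ P := by
      rcases hpr.mem_or_mem h1 with h | h
      · exact ⟨k, h⟩
      · exact ⟨-k, by push_cast; rwa [sub_neg_eq_add]⟩
    obtain ⟨m, hm⟩ := h2
    -- `s^p ≡ s`
    have h3 : r.s b i ^ p - r.s b i ∈ P := by
      have e1 : r.s b i ^ p - (m : 𝓞 L) ^ p ∈ P := P.mem_of_dvd (sub_dvd_pow_sub_pow _ _ p) hm
      have e2 : ((m ^ p - m : ℤ) : 𝓞 L) ∈ P := by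
        rw [hσ.int_mem]
        have := ZMod.pow_card ((m : ℤ) : ZMod p)
        rw [← sub_eq_zero, ← Int.cast_pow, ← Int.cast_sub, ZMod.intCast_zmod_eq_zero_iff_dvd] at this
        exact this
      have : r.s b i ^ p - r.s b i = (r.s b i ^ p - (m : 𝓞 L) ^ p) + ((m ^ p - m : ℤ) : 𝓞 L) -
        (r.s b i - m) := by push_cast; ring
      rw [this]
      exact P.sub_mem (P.add_mem e1 e2) hm
    have h4 : σ • r.s b i - r.s b i ∈ P := by
      have := P.add_mem (hσ.spec (r.s b i)) h3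
      have e : σ • r.s b i - r.s b i ^ p + (r.s b i ^ p - r.s b i) = σ • r.s b i - r.s b i := by
        ring
      rwa [e] at this
    rcases r.smul_s b σ hfix with h | h
    · exact h
    · exfalso
      rw [h] at h4
      have h5 : (2 : 𝓞 L) * r.s b i ∈ P := by
        have := P.neg_mem h4
        have e : -(-r.s b i - r.s b i) = 2 * r.s b i := by ring
        rwa [e] at this
      rcases hpr.mem_or_mem h5 with h6 | h6
      · have h7 : ((2 : ℤ) : 𝓞 L) ∈ P := by exact_mod_cast h6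
        rw [hσ.int_mem] at h7
        have h8 : p ∣ 2 := by exact_mod_cast h7
        exact hp2 ((Nat.prime_dvd_prime_iff_eq hp.out Nat.prime_two).1 h8)
      · exact hs h6
  · intro h
    have h1 : r.s b i ^ p - r.s b i ∈ P := by
      have := hσ.spec (r.s b i)
      rw [h] at this
      have := P.neg_mem this
      rwa [neg_sub] at this
    obtain ⟨k, hk⟩ := hσ.exists_int h1
    refine ⟨(k : ZMod p), ?_⟩
    rw [← sub_eq_zero, ← Int.cast_mul, ← Int.cast_sub, ZMod.intCast_zmod_eq_zero_iff_dvd,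
      ← hσ.int_mem]
    have : (((q !b).eval n - k * k : ℤ) : 𝓞 L) = (r.s b i - k) * (r.s b i + k) -
        (r.s b i ^ 2 - (((q !b).eval n : ℤ) : 𝓞 L)) := by push_cast; ring
    rw [this]
    exact P.sub_mem (P.mul_mem_right _ hk) h0

end frob

open Classical in
/-- `σ` fixes a zero and the square root -/
noncomputable def gP (r : Roots q L) (b : Bool) (σ : L ≃ₐ[ℚ] L) : ℝ :=
  if ∃ i, σ • r.θ b i = r.θ b i ∧ σ • r.s b i = r.s b i then 1 else 0

open Classical in
/-- `σ` fixes a zero but not the square root -/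
noncomputable def gM (r : Roots q L) (b : Bool) (σ : L ≃ₐ[ℚ] L) : ℝ :=
  if ∃ i, σ • r.θ b i = r.θ b i ∧ σ • r.s b i ≠ r.s b i then 1 else 0

open Classical in
/-- `σ` fixes a zero -/
noncomputable def gR (r : Roots q L) (b : Bool) (σ : L ≃ₐ[ℚ] L) : ℝ :=
  if ∃ i, σ • r.θ b i = r.θ b i then 1 else 0

/-- **The indicators at good primes.** -/
theorem exists_good : ∃ M : ℕ, M ≠ 0 ∧ ∀ (p : ℕ) [Fact p.Prime], ¬ p ∣ M →
    ∀ (P : Ideal (𝓞 L)) (σ : L ≃ₐ[ℚ] L), IsFrob L p P σ → ∀ b,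
      iP q b p = gP r b σ ∧ iM q b p = gM r b σ ∧ iR q b p = gR r b σ := by
  classical
  choose Mb hMb hbad using fun b => exists_bad (L := L) (r.inj b)
  refine ⟨2 * (∏ b, Mb b) * ∏ b, ∏ i, Ideal.absNorm (Ideal.span {r.s b i}), ?_, ?_⟩
  · refine mul_ne_zero (mul_ne_zero two_ne_zero (prod_ne_zero_iff.2 fun b _ => hMb b)) ?_
    rw [prod_ne_zero_iff]
    intro b _
    rw [prod_ne_zero_iff]
    intro i _
    rw [Ideal.absNorm_ne_zero_iff_mem_nonZeroDivisors, mem_nonZeroDivisors_iff_ne_zero, Ne,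
      Ideal.zero_eq_bot, Ideal.span_singleton_eq_bot]
    exact r.ne b i
  · intro p hp hpM P σ hσ b
    have hp2 : p ≠ 2 := by
      rintro rfl
      apply hpM
      rw [mul_assoc]
      exact dvd_mul_right _ _
    have hd : ∀ i j, i ≠ j → r.θ b i - r.θ b j ∉ P := hbad b p (fun h => hpM (by
      apply Dvd.dvd.mul_right
      apply Dvd.dvd.mul_left
      exact h.trans (Finset.dvd_prod_of_mem _ (mem_univ b)))) P σ hσ
    have hs : ∀ i, r.s b i ∉ P := by
      intro i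
      apply hσ.not_mem
      intro h
      apply hpM
      apply Dvd.dvd.mul_left
      refine h.trans (dvd_trans ?_ (Finset.dvd_prod_of_mem _ (mem_univ b)))
      exact Finset.dvd_prod_of_mem (fun i => Ideal.absNorm (Ideal.span {r.s b i})) (mem_univ i)
    have hroot : ∀ n : ℤ, aeval (n : ZMod p) (q b) = 0 ↔ ∃ i, r.θ b i - n ∈ P := by
      intro n
      rw [← hσ.root_iff (r.fac b) n, IsRoot.def, eval_map, aeval_def]
      rw [show (algebraMap ℤ (ZMod p)) = Int.castRingHom (ZMod p) from RingHom.ext_int _ _]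
    have hfix := hσ.fix_iff (r.fac b) hd
    refine ⟨?_, ?_, ?_⟩
    · unfold iP gP
      congr 1
      apply propext
      constructor
      · rintro ⟨θ, h1, h2⟩
        obtain ⟨n, rfl⟩ := ZMod.intCast_surjective θ
        obtain ⟨i, hi⟩ := (hroot n).1 h1
        have hf := (hfix i).2 ⟨n, hi⟩
        exact ⟨i, hf, (isSquare_iff r hσ hp2 b i (hs i) hf hi).1 h2⟩
      · rintro ⟨i, h1, h2⟩
        obtain ⟨n, hn⟩ := (hfix i).1 h1
        exact ⟨n, (hroot n).2 ⟨i, hn⟩, (isSquare_iff r hσ hp2 b i (hs i) h1 hn).2 h2⟩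
    · unfold iM gM
      congr 1
      apply propext
      constructor
      · rintro ⟨θ, h1, h2⟩
        obtain ⟨n, rfl⟩ := ZMod.intCast_surjective θ
        obtain ⟨i, hi⟩ := (hroot n).1 h1
        have hf := (hfix i).2 ⟨n, hi⟩
        exact ⟨i, hf, fun h => h2 ((isSquare_iff r hσ hp2 b i (hs i) hf hi).2 h)⟩
      · rintro ⟨i, h1, h2⟩
        obtain ⟨n, hn⟩ := (hfix i).1 h1
        exact ⟨n, (hroot n).2 ⟨i, hn⟩, fun h =>
          h2 ((isSquare_iff r hσ hp2 b i (hs i) h1 hn).1 h)⟩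
    · unfold iR gR
      congr 1
      apply propext
      constructor
      · rintro ⟨θ, h1⟩
        obtain ⟨n, rfl⟩ := ZMod.intCast_surjective θ
        obtain ⟨i, hi⟩ := (hroot n).1 h1
        exact ⟨i, (hfix i).2 ⟨n, hi⟩⟩
      · rintro ⟨i, h1⟩
        obtain ⟨n, hn⟩ := (hfix i).1 h1
        exact ⟨n, (hroot n).2 ⟨i, hn⟩⟩

end Stoll308.GF
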