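import Mathlib
import Pool.Agent.Work.MP_308fa9_nt.GF.Mean
import Pool.Agent.Work.MP_308fa9_nt.Gen.Euler

set_option autoImplicit false

/-!
The means of the weights in terms of the Galois group.
-/

namespace Stoll308.GF

open Finset NumberField Polynomial MeanSum Stoll308.Cheb Pool.Agent.Work.MP_2b9663_nt

variable {q : Bool → ℤ[X]} {L : Type} [Field L] [NumberField L] (r : Roots q L)

section inv

variable {r}

lemma fix_of_zpowers {σ τ : L ≃ₐ[ℚ] L} {x : 𝓞 L} (h : τ ∈ Subgroup.zpowers σ) (hx : σ • x = x) :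
    τ • x = x := by
  obtain ⟨k, rfl⟩ := Subgroup.mem_zpowers_iff.1 h
  exact (MulAction.stabilizer (L ≃ₐ[ℚ] L) x).zpow_mem (show σ ∈ MulAction.stabilizer _ x from hx) k

lemma conj_fix {g σ : L ≃ₐ[ℚ] L} {x : 𝓞 L} (h : σ • x = x) : (g * σ * g⁻¹) • (g • x) = g • x := by
  rw [smul_smul, inv_mul_cancel_right, mul_smul, h]

lemma conj_fix_iff {g σ : L ≃ₐ[ℚ] L} {x : 𝓞 L} : (g * σ * g⁻¹) • (g • x) = g • x ↔ σ • x = x := by
  rw [smul_smul, inv_mul_cancel_right, mul_smul, smul_left_cancel_iff]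

lemma smul_fix_neg {σ : L ≃ₐ[ℚ] L} {x : 𝓞 L} : σ • (-x) = -x ↔ σ • x = x := by
  rw [smul_neg, neg_inj]

/-- conjugation -/
lemma conj_pair (b : Bool) (g σ : L ≃ₐ[ℚ] L) {i : Fin (q b).natDegree}
    (h : σ • r.θ b i = r.θ b i) : ∃ j, (g * σ * g⁻¹) • r.θ b j = r.θ b j ∧
      ((g * σ * g⁻¹) • r.s b j = r.s b j ↔ σ • r.s b i = r.s b i) := by
  obtain ⟨j, hj⟩ := r.exists_smul b g i
  refine ⟨j, ?_, ?_⟩
  · rw [← hj]
    exact conj_fix h
  · rcases r.smul_s b g hj with h1 | h1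
    · rw [← h1, conj_fix_iff]
    · have h2 : r.s b j = -(g • r.s b i) := by rw [h1, neg_neg]
      rw [h2, smul_fix_neg, conj_fix_iff]

end inv

lemma gP_conj (b : Bool) (g σ : L ≃ₐ[ℚ] L) : gP r b (g * σ * g⁻¹) = gP r b σ := by
  have key : ∀ g σ : L ≃ₐ[ℚ] L, (∃ i, σ • r.θ b i = r.θ b i ∧ σ • r.s b i = r.s b i) →
      ∃ i, (g * σ * g⁻¹) • r.θ b i = r.θ b i ∧ (g * σ * g⁻¹) • r.s b i = r.s b i := by
    rintro g σ ⟨i, h1, h2⟩
    obtain ⟨j, h3, h4⟩ := conj_pair b g σ h1
    exact ⟨j, h3, h4.2 h2⟩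
  unfold gP
  congr 1
  apply propext
  constructor
  · intro h
    have := key g⁻¹ _ h
    simpa [mul_assoc] using this
  · exact key g σ

lemma gM_conj (b : Bool) (g σ : L ≃ₐ[ℚ] L) : gM r b (g * σ * g⁻¹) = gM r b σ := by
  have key : ∀ g σ : L ≃ₐ[ℚ] L, (∃ i, σ • r.θ b i = r.θ b i ∧ σ • r.s b i ≠ r.s b i) →
      ∃ i, (g * σ * g⁻¹) • r.θ b i = r.θ b i ∧ (g * σ * g⁻¹) • r.s b i ≠ r.s b i := by
    rintro g σ ⟨i, h1, h2⟩
    obtain ⟨j, h3, h4⟩ := conj_pair b g σ h1
    exact ⟨j, h3, fun h => h2 (h4.1 h)⟩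
  unfold gM
  congr 1
  apply propext
  constructor
  · intro h
    have := key g⁻¹ _ h
    simpa [mul_assoc] using this
  · exact key g σ

open Classical in
/-- `σ` fixes a zero of one of the two polynomials -/
noncomputable def gA (r : Roots q L) (σ : L ≃ₐ[ℚ] L) : ℝ :=
  if ∃ b i, σ • r.θ b i = r.θ b i then 1 else 0

lemma gR_conj (b : Bool) (g σ : L ≃ₐ[ℚ] L) : gR r b (g * σ * g⁻¹) = gR r b σ := by
  have key : ∀ g σ : L ≃ₐ[ℚ] L, (∃ i, σ • r.θ b i = r.θ b i) →
      ∃ i, (g * σ * g⁻¹) • r.θ b i = r.θ b i := by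
    rintro g σ ⟨i, h1⟩
    obtain ⟨j, h3, _⟩ := conj_pair b g σ h1
    exact ⟨j, h3⟩
  unfold gR
  congr 1
  apply propext
  constructor
  · intro h
    have := key g⁻¹ _ h
    simpa [mul_assoc] using this
  · exact key g σ

lemma gA_conj (g σ : L ≃ₐ[ℚ] L) : gA r (g * σ * g⁻¹) = gA r σ := by
  have key : ∀ g σ : L ≃ₐ[ℚ] L, (∃ b i, σ • r.θ b i = r.θ b i) →
      ∃ b i, (g * σ * g⁻¹) • r.θ b i = r.θ b i := by
    rintro g σ ⟨b, i, h1⟩
    obtain ⟨j, h3, _⟩ := conj_pair b g σ h1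
    exact ⟨b, j, h3⟩
  unfold gA
  congr 1
  apply propext
  constructor
  · intro h
    have := key g⁻¹ _ h
    simpa [mul_assoc] using this
  · exact key g σ

section div

variable {σ τ : L ≃ₐ[ℚ] L} (h : Subgroup.zpowers σ = Subgroup.zpowers τ)

include h

lemma fix_iff_fix (x : 𝓞 L) : σ • x = x ↔ τ • x = x :=
  ⟨fix_of_zpowers (h ▸ Subgroup.mem_zpowers τ), fix_of_zpowers (h ▸ Subgroup.mem_zpowers σ)⟩

lemma gP_div (b : Bool) : gP r b σ = gP r b τ := by
  unfold gP
  congr 1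
  exact propext (exists_congr fun i => and_congr (fix_iff_fix h _) (fix_iff_fix h _))

lemma gM_div (b : Bool) : gM r b σ = gM r b τ := by
  unfold gM
  congr 1
  exact propext (exists_congr fun i => and_congr (fix_iff_fix h _) (not_congr (fix_iff_fix h _)))

lemma gR_div (b : Bool) : gR r b σ = gR r b τ := by
  unfold gR
  congr 1
  exact propext (exists_congr fun i => fix_iff_fix h _)

lemma gA_div : gA r σ = gA r τ := by
  unfold gA
  congr 1
  exact propext (exists_congr fun b => exists_congr fun i => fix_iff_fix h _)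

end div

/-- the mean over the Galois group -/
noncomputable def mean (φ : (L ≃ₐ[ℚ] L) → ℝ) : ℝ := (∑ σ, φ σ) / Fintype.card (L ≃ₐ[ℚ] L)

variable [IsGalois ℚ L]

theorem MV_ind (b : Bool) : MV (fun p : Nat.Primes => iP q b p) (mean (gP r b)) ∧
    MV (fun p : Nat.Primes => iM q b p) (mean (gM r b)) ∧
    MV (fun p : Nat.Primes => iR q b p) (mean (gR r b)) ∧
    MV (fun p : Nat.Primes => max (iR q false p) (iR q true p)) (mean (gA r)) := by
  obtain ⟨M, hM, hgood⟩ := exists_good r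
  obtain ⟨T, hT⟩ := finite_dvd hM
  have hb : ∀ x : ℝ, (x = 0 ∨ x = 1) → |x| ≤ 1 := by
    rintro x (rfl | rfl) <;> simp
  have hR : ∀ b p, iR q b p = 0 ∨ iR q b p = 1 := by
    intro b p; unfold iR; split_ifs <;> simp
  refine ⟨(MV_class L _ (gP_conj r b) (fun _ _ h => gP_div r h b)).congr
      ⟨1, fun p => hb _ (iP_mem b p)⟩ T ?_,
    (MV_class L _ (gM_conj r b) (fun _ _ h => gM_div r h b)).congr
      ⟨1, fun p => hb _ (iM_mem b p)⟩ T ?_,
    (MV_class L _ (gR_conj r b) (fun _ _ h => gR_div r h b)).congr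
      ⟨1, fun p => hb _ (hR b p)⟩ T ?_,
    (MV_class L _ (gA_conj r) (fun _ _ h => gA_div r h)).congr
      ⟨1, fun p => hb _ (by
        change max (iR q false p) (iR q true p) = 0 ∨ max (iR q false p) (iR q true p) = 1
        rcases hR false p with h | h <;> rcases hR true p with h' | h' <;> (rw [h, h']; simp))⟩
      T ?_⟩
  · intro p hp
    have : Fact (p : ℕ).Prime := ⟨p.2⟩
    exact (hgood p (fun hd => hp (hT p hd)) _ _ (frob_spec L p) b).1.symm
  · intro p hp
    have : Fact (p : ℕ).Prime := ⟨p.2⟩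
    exact (hgood p (fun hd => hp (hT p hd)) _ _ (frob_spec L p) b).2.1.symm
  · intro p hp
    have : Fact (p : ℕ).Prime := ⟨p.2⟩
    exact (hgood p (fun hd => hp (hT p hd)) _ _ (frob_spec L p) b).2.2.symm
  · intro p hp
    have : Fact (p : ℕ).Prime := ⟨p.2⟩
    have h1 := (hgood p (fun hd => hp (hT p hd)) _ _ (frob_spec L p) false).2.2
    have h2 := (hgood p (fun hd => hp (hT p hd)) _ _ (frob_spec L p) true).2.2
    rw [h1, h2]
    unfold gA gR
    by_cases h3 : ∃ i, frob L p • r.θ false i = r.θ false i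
    · rw [if_pos ⟨false, h3⟩, if_pos h3]
      (split_ifs; all_goals simp)
    · by_cases h4 : ∃ i, frob L p • r.θ true i = r.θ true i
      · rw [if_pos ⟨true, h4⟩, if_pos h4]
        split_ifs <;> simp
      · rw [if_neg h3, if_neg h4, if_neg]
        · simp
        · rintro ⟨b, hb⟩
          cases b
          · exact h3 hb
          · exact h4 hb

/-- the exponent of the diagonal index sets -/
noncomputable def κE (r : Roots q L) : ℝ :=
  ∑ b, (mean (gP r b) + mean (gM r b)) / 2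

theorem mean_wA : ∃ C : ℝ, ∀ X : ℕ, 3 ≤ X → ∑ p ∈ PR X, (wA q false p + wA q true p) / p ≤
      κE r * Real.log (Real.log X) + C := by
  have h : MV (fun p : Nat.Primes => wA q false p + wA q true p) (κE r) := by
    have h1 := ((MV_ind r false).1.add (MV_ind r false).2.1).const_mul (1 / 2)
    have h2 := ((MV_ind r true).1.add (MV_ind r true).2.1).const_mul (1 / 2)
    have h3 := h1.add h2
    unfold κE
    rw [Fintype.sum_bool]
    convert h3 using 1
    · funext p
      unfold wA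
      ring
    · ring
  obtain ⟨C, hC, hM⟩ := mv_sum (c := fun p : ℕ => wA q false p + wA q true p) h
  refine ⟨C, fun X hX => ?_⟩
  have := (abs_le.1 (hM X hX)).2
  linarith

theorem mean_iR (b : Bool) : ∃ C : ℝ, ∀ X : ℕ, 3 ≤ X → ∑ p ∈ PR X, iR q b p / p ≤
      mean (gR r b) * Real.log (Real.log X) + C := by
  obtain ⟨C, hC, hM⟩ := mv_sum (c := fun p : ℕ => iR q b p) (MV_ind r b).2.2.1
  refine ⟨C, fun X hX => ?_⟩
  have := (abs_le.1 (hM X hX)).2
  linarith

open Classical in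
lemma mem_rootPrimes {X p : ℕ} : p ∈ Gen.rootPrimes (q false * q true) X ↔
    p ∈ PR X ∧ max (iR q false p) (iR q true p) = 1 := by
  unfold Gen.rootPrimes
  rw [mem_filter, mem_PR, mem_Icc]
  have key : ∀ hp : p.Prime, (Gen.R (q false * q true) p).Nonempty ↔
      max (iR q false p) (iR q true p) = 1 := by
    intro hp
    have : Fact p.Prime := ⟨hp⟩
    have h1 : (Gen.R (q false * q true) p).Nonempty ↔
        ∃ b, ∃ θ : ZMod p, aeval θ (q b) = 0 := by
      have hev : ∀ (a : ℤ) (f : ℤ[X]), (p : ℤ) ∣ f.eval a ↔ aeval (a : ZMod p) f = 0 := by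
        intro a f
        rw [aeval_int, ZMod.intCast_zmod_eq_zero_iff_dvd]
      constructor
      · rintro ⟨a, ha⟩
        unfold Gen.R at ha
        rw [mem_filter, eval_mul] at ha
        rcases (Nat.prime_iff_prime_int.1 hp).dvd_or_dvd ha.2 with h | h
        · exact ⟨false, _, (hev _ _).1 h⟩
        · exact ⟨true, _, (hev _ _).1 h⟩
      · rintro ⟨b, θ, hθ⟩
        refine ⟨θ.val, ?_⟩
        unfold Gen.R
        have hNe : NeZero p := ⟨hp.ne_zero⟩
        rw [mem_filter, mem_range, eval_mul]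
        refine ⟨ZMod.val_lt θ, ?_⟩
        have h2 : (p : ℤ) ∣ (q b).eval ((θ.val : ℕ) : ℤ) := by
          rw [hev, Int.cast_natCast, ZMod.natCast_zmod_val]
          exact hθ
        cases b
        · exact Dvd.dvd.mul_right h2 _
        · exact Dvd.dvd.mul_left h2 _
    rw [h1]
    unfold iR
    by_cases h3 : ∃ θ : ZMod p, aeval θ (q false) = 0
    · rw [if_pos h3]
      refine ⟨fun _ => ?_, fun _ => ⟨false, h3⟩⟩
      (split_ifs; all_goals simp)
    · by_cases h4 : ∃ θ : ZMod p, aeval θ (q true) = 0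
      · rw [if_pos h4]
        refine ⟨fun _ => ?_, fun _ => ⟨true, h4⟩⟩
        split_ifs <;> simp
      · rw [if_neg h3, if_neg h4]
        refine ⟨?_, fun h => by simp at h⟩
        rintro ⟨b, hb⟩
        cases b
        · exact absurd hb h3
        · exact absurd hb h4
  constructor
  · rintro ⟨⟨h1, h2⟩, h3, h4⟩
    exact ⟨⟨h3, h2⟩, (key h3).1 h4⟩
  · rintro ⟨⟨h1, h2⟩, h3⟩
    exact ⟨⟨h1.one_le, h2⟩, h1, (key h1).2 h3⟩

/-- the Euler product over the primes modulo which one of the polynomials has a root -/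
theorem prod_root_ge : ∃ c : ℝ, 0 < c ∧ ∀ X : ℕ, 3 ≤ X →
    c * Real.log X ^ (mean (gA r)) ≤
      ∏ p ∈ Gen.rootPrimes (q false * q true) X, (1 + 1 / (p : ℝ)) := by
  obtain ⟨C, hC, hM⟩ := mv_sum (c := fun p : ℕ => max (iR q false p) (iR q true p))
    (MV_ind r false).2.2.2
  refine ⟨Real.exp (-C - 1), Real.exp_pos _, fun X hX => ?_⟩
  have hX1 : (3 : ℝ) ≤ X := by exact_mod_cast hX
  have hL0 : 0 < Real.log X := Real.log_pos (by linarith)
  have h1 := (abs_le.1 (hM X hX)).1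
  have h2 : ∑ p ∈ PR X, max (iR q false p) (iR q true p) / (p : ℝ) =
      ∑ p ∈ Gen.rootPrimes (q false * q true) X, 1 / (p : ℝ) := by
    classical
    have h3 : Gen.rootPrimes (q false * q true) X =
        (PR X).filter (fun p => max (iR q false p) (iR q true p) = 1) := by
      ext p
      rw [mem_rootPrimes]
      constructor
      · rintro ⟨h1, h2⟩
        exact mem_filter.2 ⟨h1, h2⟩
      · intro h
        exact ⟨(mem_filter.1 h).1, (mem_filter.1 h).2⟩
    have h4 : ∑ p ∈ (PR X).filter (fun p => max (iR q false p) (iR q true p) = 1), 1 / (p : ℝ) =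
        ∑ p ∈ PR X, if max (iR q false p) (iR q true p) = 1 then 1 / (p : ℝ) else 0 :=
      sum_filter _ _
    rw [h3, h4]
    refine sum_congr rfl fun p _ => ?_
    have hR : ∀ b p, iR q b p = 0 ∨ iR q b p = 1 := by
      intro b p; unfold iR; split_ifs <;> simp
    rcases hR false p with h | h <;> rcases hR true p with h' | h' <;> rw [h, h'] <;> simp
  rw [h2] at h1
  refine le_trans ?_ (Gen.prod_ge_exp (Gen.rootPrimes (q false * q true) X) fun p hp => ?_)
  · rw [Real.rpow_def_of_pos hL0, ← Real.exp_add, Real.exp_le_exp]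
    linarith
  · rw [mem_rootPrimes, mem_PR] at hp
    exact hp.1.1

end Stoll308.GF
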