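import Mathlib

set_option autoImplicit false

/-!
Moments of the number of fixed points of a random permutation.
-/

namespace Stoll308.GF

open Finset

section perm

variable (n : ℕ)

/-- the number of fixed points -/
def fixn {n : ℕ} (π : Equiv.Perm (Fin n)) : ℕ := Fintype.card {i // π i = i}

lemma card_fixedBy (k : ℕ) (π : Equiv.Perm (Fin n)) :
    Nat.card (MulAction.fixedBy (Fin k ↪ Fin n) π) = (fixn π).descFactorial k := by
  have e : MulAction.fixedBy (Fin k ↪ Fin n) π ≃ (Fin k ↪ {i // π i = i}) := by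
    refine ⟨fun f => ⟨fun j => ⟨f.1 j, ?_⟩, ?_⟩, fun g => ⟨g.trans (Function.Embedding.subtype _), ?_⟩,
      ?_, ?_⟩
    · have := DFunLike.congr_fun (f.2 : π • f.1 = f.1) j
      exact this
    · intro a b hab
      exact f.1.injective (congrArg Subtype.val hab)
    · ext j
      exact congrArg Fin.val (g j).2
    · intro f
      rfl
    · intro g
      rfl
  rw [Nat.card_congr e, Nat.card_eq_fintype_card, Fintype.card_embedding_eq, Fintype.card_fin]
  rfl

lemma sum_descFactorial {k : ℕ} (hk : k ≤ n) :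
    ∑ π : Equiv.Perm (Fin n), (fixn π).descFactorial k = n.factorial := by
  classical
  have h := MulAction.sum_card_fixedBy_eq_card_orbits_mul_card_group (Equiv.Perm (Fin n))
    (Fin k ↪ Fin n)
  have h1 : Fintype.card (Quotient (MulAction.orbitRel (Equiv.Perm (Fin n)) (Fin k ↪ Fin n))) = 1 := by
    rw [Fintype.card_eq_one_iff_nonempty_unique]
    have hs : Subsingleton (Quotient (MulAction.orbitRel (Equiv.Perm (Fin n)) (Fin k ↪ Fin n))) :=
      (MulAction.pretransitive_iff_subsingleton_quotient _ _).1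
        (Equiv.Perm.isMultiplyPretransitive (Fin n) k)
    exact ⟨⟨Quotient.mk _ (Fin.castLEEmb hk)⟩, fun a => Subsingleton.elim _ _⟩
  rw [h1, one_mul, Fintype.card_perm, Fintype.card_fin] at h
  rw [← h]
  refine sum_congr rfl fun π _ => ?_
  rw [← card_fixedBy, Nat.card_eq_fintype_card]

lemma fixn_le (π : Equiv.Perm (Fin n)) : fixn π ≤ n := by
  unfold fixn
  refine (Fintype.card_subtype_le _).trans ?_
  rw [Fintype.card_fin]

lemma sum_descFactorial_le (k : ℕ) :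
    ∑ π : Equiv.Perm (Fin n), (fixn π).descFactorial k ≤ n.factorial := by
  rcases le_or_gt k n with h | h
  · exact (sum_descFactorial n h).le
  · rw [sum_eq_zero]
    · exact Nat.zero_le _
    · intro π _
      rw [Nat.descFactorial_eq_zero_iff_lt]
      exact lt_of_le_of_lt (fixn_le n π) h

end perm

lemma cast_desc (F k : ℕ) : ((F.descFactorial (k + 1) : ℕ) : ℝ) =
    (F.descFactorial k : ℕ) * ((F : ℝ) - k) := by
  rw [Nat.descFactorial_succ]
  rcases le_or_gt k F with h | h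
  · push_cast [Nat.cast_sub h]
    ring
  · rw [Nat.descFactorial_eq_zero_iff_lt.2 h]
    simp

/-- truncations of `(1/2)^F = (1 - 1/2)^F` -/
lemma half_pow_bounds (F : ℕ) : (1 / 2 : ℝ) ^ F ≤ 1 ∧ 1 - (F : ℝ) / 2 ≤ (1 / 2 : ℝ) ^ F ∧
    (1 / 2 : ℝ) ^ F ≤ 1 - (F : ℝ) / 2 + F * (F - 1) / 8 ∧
    1 - (F : ℝ) / 2 + F * (F - 1) / 8 - F * (F - 1) * (F - 2) / 48 ≤ (1 / 2 : ℝ) ^ F := by
  induction F with
  | zero => norm_num
  | succ F ih =>
    obtain ⟨h0, h1, h2, h3⟩ := ih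
    rw [pow_succ]
    push_cast
    refine ⟨?_, ?_, ?_, ?_⟩
    · have : (0 : ℝ) ≤ (1 / 2) ^ F := by positivity
      linarith
    · nlinarith
    · nlinarith
    · nlinarith

lemma ind_le_two (F : ℕ) : (if F = 0 then (1 : ℝ) else 0) ≤ 1 - F + F * (F - 1) / 2 := by
  rcases F with _ | _ | F
  · norm_num
  · norm_num
  · rw [if_neg (by omega)]
    push_cast
    have : (0 : ℝ) ≤ F := Nat.cast_nonneg F
    nlinarith

lemma ind_le_four (F : ℕ) : (if F = 0 then (1 : ℝ) else 0) ≤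
    1 - F + F * (F - 1) / 2 - F * (F - 1) * (F - 2) / 6 + F * (F - 1) * (F - 2) * (F - 3) / 24 := by
  have key : (1 : ℝ) - F + F * (F - 1) / 2 - F * (F - 1) * (F - 2) / 6 +
      F * (F - 1) * (F - 2) * (F - 3) / 24 = (F - 1) * (F - 2) * (F - 3) * (F - 4) / 24 := by ring
  rw [key]
  rcases F with _ | _ | _ | _ | _ | F
  · norm_num
  · norm_num
  · norm_num
  · norm_num
  · norm_num
  · rw [if_neg (by omega)]
    push_cast
    have : (0 : ℝ) ≤ F := Nat.cast_nonneg F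
    have h1 : (0 : ℝ) ≤ (F : ℝ) + 1 + 1 + 1 + 1 + 1 - 1 := by linarith
    have h2 : (0 : ℝ) ≤ (F : ℝ) + 1 + 1 + 1 + 1 + 1 - 2 := by linarith
    have h3 : (0 : ℝ) ≤ (F : ℝ) + 1 + 1 + 1 + 1 + 1 - 3 := by linarith
    have h4 : (0 : ℝ) ≤ (F : ℝ) + 1 + 1 + 1 + 1 + 1 - 4 := by linarith
    positivity

section means

variable {n : ℕ}

/-- the mean over all permutations -/
noncomputable def pm (n : ℕ) (f : ℕ → ℝ) : ℝ :=
  (∑ π : Equiv.Perm (Fin n), f (fixn π)) / (n.factorial : ℝ)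

lemma fact_pos' (n : ℕ) : (0 : ℝ) < n.factorial := by exact_mod_cast n.factorial_pos

lemma pm_mono {f g : ℕ → ℝ} (h : ∀ F, f F ≤ g F) : pm n f ≤ pm n g := by
  unfold pm
  exact div_le_div_of_nonneg_right (sum_le_sum fun π _ => h _) (fact_pos' n).le

lemma pm_add (f g : ℕ → ℝ) : pm n (fun F => f F + g F) = pm n f + pm n g := by
  unfold pm
  rw [sum_add_distrib, add_div]

lemma pm_mul (c : ℝ) (f : ℕ → ℝ) : pm n (fun F => c * f F) = c * pm n f := by
  unfold pm
  rw [← mul_sum, mul_div_assoc]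

lemma pm_desc {k : ℕ} (hk : k ≤ n) : pm n (fun F => ((F.descFactorial k : ℕ) : ℝ)) = 1 := by
  unfold pm
  rw [← Nat.cast_sum, sum_descFactorial n hk, div_self (fact_pos' n).ne']

lemma pm_desc_le (k : ℕ) : pm n (fun F => ((F.descFactorial k : ℕ) : ℝ)) ≤ 1 := by
  unfold pm
  rw [← Nat.cast_sum, div_le_one (fact_pos' n)]
  exact_mod_cast sum_descFactorial_le n k

lemma desc_vals (F : ℕ) : ((F.descFactorial 1 : ℕ) : ℝ) = F ∧
    ((F.descFactorial 2 : ℕ) : ℝ) = F * (F - 1) ∧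
    ((F.descFactorial 3 : ℕ) : ℝ) = F * (F - 1) * (F - 2) ∧
    ((F.descFactorial 4 : ℕ) : ℝ) = F * (F - 1) * (F - 2) * (F - 3) := by
  have h0 : ((F.descFactorial 0 : ℕ) : ℝ) = 1 := by simp
  have h1 := cast_desc F 0
  have h2 := cast_desc F 1
  have h3 := cast_desc F 2
  have h4 := cast_desc F 3
  simp only [zero_add, Nat.reduceAdd] at h1 h2 h3 h4
  rw [h0] at h1
  rw [h1] at h2
  rw [h2] at h3
  rw [h3] at h4
  refine ⟨?_, ?_, ?_, ?_⟩
  · rw [h1]; push_cast; ring
  · rw [h2]; push_cast; ring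
  · rw [h3]; push_cast; ring
  · rw [h4]; push_cast; ring

/-- the probability that a random signed permutation has a positive fixed point -/
lemma pm_half (hn : 2 ≤ n) : pm n (fun F => 1 - (1 / 2 : ℝ) ^ F) ≤ 19 / 48 := by
  have h1 : pm n (fun F => 1 - (1 / 2 : ℝ) ^ F) ≤ pm n (fun F =>
      1 / 2 * ((F.descFactorial 1 : ℕ) : ℝ) + (-(1 / 8) * ((F.descFactorial 2 : ℕ) : ℝ) +
        1 / 48 * ((F.descFactorial 3 : ℕ) : ℝ))) := by
    apply pm_mono
    intro F
    obtain ⟨e1, e2, e3, _⟩ := desc_vals F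
    rw [e1, e2, e3]
    have := (half_pow_bounds F).2.2.2
    linarith
  rw [pm_add (fun F => 1 / 2 * ((F.descFactorial 1 : ℕ) : ℝ)), pm_add (fun F =>
    -(1 / 8) * ((F.descFactorial 2 : ℕ) : ℝ)), pm_mul, pm_mul, pm_mul, pm_desc (by omega),
    pm_desc (by omega)] at h1
  have h2 := pm_desc_le (n := n) 3
  linarith

lemma pm_zero_two (hn : 2 ≤ n) : pm n (fun F => if F = 0 then 1 else 0) ≤ 1 / 2 := by
  have h1 : pm n (fun F => if F = 0 then 1 else 0) ≤ pm n (fun F =>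
      1 * ((F.descFactorial 0 : ℕ) : ℝ) + (-1 * ((F.descFactorial 1 : ℕ) : ℝ) +
        1 / 2 * ((F.descFactorial 2 : ℕ) : ℝ))) := by
    apply pm_mono
    intro F
    obtain ⟨e1, e2, e3, _⟩ := desc_vals F
    rw [e1, e2]
    have := ind_le_two F
    simp only [Nat.descFactorial_zero, Nat.cast_one]
    linarith
  rw [pm_add (fun F => 1 * ((F.descFactorial 0 : ℕ) : ℝ)), pm_add (fun F =>
    -1 * ((F.descFactorial 1 : ℕ) : ℝ)), pm_mul, pm_mul, pm_mul, pm_desc (by omega),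
    pm_desc (by omega), pm_desc (by omega)] at h1
  linarith

lemma pm_zero_four (hn : 4 ≤ n) : pm n (fun F => if F = 0 then 1 else 0) ≤ 3 / 8 := by
  have h1 : pm n (fun F => if F = 0 then 1 else 0) ≤ pm n (fun F =>
      1 * ((F.descFactorial 0 : ℕ) : ℝ) + (-1 * ((F.descFactorial 1 : ℕ) : ℝ) +
        (1 / 2 * ((F.descFactorial 2 : ℕ) : ℝ) + (-(1 / 6) * ((F.descFactorial 3 : ℕ) : ℝ) +
          1 / 24 * ((F.descFactorial 4 : ℕ) : ℝ))))) := by
    apply pm_mono
    intro F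
    obtain ⟨e1, e2, e3, e4⟩ := desc_vals F
    rw [e1, e2, e3, e4]
    have := ind_le_four F
    simp only [Nat.descFactorial_zero, Nat.cast_one]
    linarith
  rw [pm_add (fun F => 1 * ((F.descFactorial 0 : ℕ) : ℝ)), pm_add (fun F =>
    -1 * ((F.descFactorial 1 : ℕ) : ℝ)), pm_add (fun F =>
    1 / 2 * ((F.descFactorial 2 : ℕ) : ℝ)), pm_add (fun F =>
    -(1 / 6) * ((F.descFactorial 3 : ℕ) : ℝ)), pm_mul, pm_mul, pm_mul, pm_mul, pm_mul,
    pm_desc (by omega), pm_desc (by omega), pm_desc (by omega), pm_desc (by omega),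
    pm_desc (by omega)] at h1
  linarith

end means

end Stoll308.GF
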