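import Mathlib
import Pool.Agent.Work.MP_308fa9_nt.GF.Mean2
import Pool.Agent.Work.MP_308fa9_nt.GF.Perm

set_option autoImplicit false

/-!
The means of the weights for generic Galois groups.
-/

namespace Stoll308.GF

open Finset NumberField Polynomial MeanSum Stoll308.Cheb Pool.Agent.Work.MP_2b9663_nt

section fiber

/-- A function on a finite group that factors through a left-invariant surjection. -/
lemma mean_fiber {G T : Type*} [Group G] [Fintype G] [Fintype T] (R : G → T → Prop)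
    (hex : ∀ σ, ∃ t, R σ t) (hsurj : ∀ t, ∃ σ, R σ t) (huniq : ∀ σ t t', R σ t → R σ t' → t = t')
    (hleft : ∀ τ σ σ' t t', R σ t → R σ' t → R (τ * σ) t' → R (τ * σ') t')
    (φ : G → ℝ) (F : T → ℝ) (hφ : ∀ σ t, R σ t → φ σ = F t) :
    (∑ σ, φ σ) / Fintype.card G = (∑ t, F t) / Fintype.card T := by
  classical
  choose Φ hΦ using hex
  have hcard : ∀ t, (univ.filter fun σ => Φ σ = t).card = (univ.filter fun σ => Φ σ = Φ 1).card := by
    intro t
    obtain ⟨τ, hτ⟩ := hsurj t
    have hΦt : Φ τ = t := huniq _ _ _ (hΦ τ) hτ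
    refine (card_nbij' (fun σ => τ * σ) (fun σ => τ⁻¹ * σ) ?_ ?_ ?_ ?_).symm
    · intro σ hσ
      rw [mem_coe, mem_filter] at hσ
      rw [mem_coe, mem_filter]
      refine ⟨mem_univ _, ?_⟩
      have h1 := hleft τ 1 σ (Φ 1) t (hΦ 1) (hσ.2 ▸ hΦ σ) (by rw [mul_one]; exact hτ)
      exact huniq _ _ _ (hΦ _) h1
    · intro σ hσ
      rw [mem_coe, mem_filter] at hσ
      rw [mem_coe, mem_filter]
      refine ⟨mem_univ _, ?_⟩
      have h1 := hleft τ⁻¹ τ σ t (Φ 1) hτ (hσ.2 ▸ hΦ σ) (by rw [inv_mul_cancel]; exact hΦ 1)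
      exact huniq _ _ _ (hΦ _) h1
    · intro σ _
      simp
    · intro σ _
      simp
  set c := (univ.filter fun σ => Φ σ = Φ 1).card with hc
  have h1 : ∑ σ, φ σ = c * ∑ t, F t := by
    rw [← sum_fiberwise univ Φ φ, mul_sum]
    refine sum_congr rfl fun t _ => ?_
    have h2 : ∀ σ ∈ univ.filter (fun σ => Φ σ = t), φ σ = F t :=
      fun σ hσ => hφ σ t ((mem_filter.1 hσ).2 ▸ hΦ σ)
    rw [sum_congr rfl h2, sum_const, hcard t, nsmul_eq_mul]
  have h2 : (Fintype.card G : ℝ) = c * Fintype.card T := by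
    have h3 : Fintype.card G = ∑ t : T, (univ.filter fun σ => Φ σ = t).card := by
      rw [← card_univ]
      exact card_eq_sum_card_fiberwise (fun x _ => mem_univ _)
    rw [h3, sum_congr rfl fun t _ => hcard t, sum_const, card_univ, smul_eq_mul]
    push_cast
    ring
  have hc0 : (c : ℝ) ≠ 0 := by
    have : 0 < c := card_pos.2 ⟨1, by simp⟩
    exact_mod_cast this.ne'
  rw [h1, h2, mul_div_mul_left _ _ hc0]

end fiber

section signs

/-- signs with a positive one at a fixed point -/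
lemma sum_signs {n : ℕ} (π : Equiv.Perm (Fin n)) (e : ℤˣ) :
    (∑ ε : Fin n → ℤˣ, if ∃ i, π i = i ∧ ε i = e then (1 : ℝ) else 0) =
      2 ^ n * (1 - (1 / 2) ^ fixn π) := by
  classical
  have h1 : ∀ ε : Fin n → ℤˣ, (if ∃ i, π i = i ∧ ε i = e then (1 : ℝ) else 0) =
      1 - ∏ i, (if π i = i then (if ε i = e then 0 else 1) else 1) := by
    intro ε
    split_ifs with h
    · obtain ⟨i, h1, h2⟩ := h
      rw [prod_eq_zero (mem_univ i), sub_zero]
      rw [if_pos h1, if_pos h2]
    · rw [prod_eq_one, sub_self]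
      intro i _
      split_ifs with h1 h2
      · exact absurd ⟨i, h1, h2⟩ h
      · rfl
      · rfl
  rw [sum_congr rfl fun ε _ => h1 ε, sum_sub_distrib, ← Fintype.piFinset_univ,
    ← prod_univ_sum (fun _ => (univ : Finset ℤˣ))
      (fun i (u : ℤˣ) => (if π i = i then (if u = e then (0 : ℝ) else 1) else 1))]
  have h2 : ∀ i, (∑ u : ℤˣ, (if π i = i then (if u = e then (0 : ℝ) else 1) else 1)) =
      2 * (if π i = i then 1 / 2 else 1) := by
    intro i
    split_ifs with h
    · rw [show (univ : Finset ℤˣ) = {1, -1} from rfl, sum_insert (by decide), sum_singleton]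
      rcases Int.units_eq_one_or e with rfl | rfl
      · rw [if_pos rfl, if_neg (by decide)]; norm_num
      · rw [if_neg (by decide), if_pos rfl]; norm_num
    · simp
  rw [prod_congr rfl fun i _ => h2 i, prod_mul_distrib, prod_const, card_univ, Fintype.card_fin,
    prod_ite, prod_const_one, mul_one, prod_const, Fintype.piFinset_univ, sum_const, card_univ,
    Fintype.card_fun]
  have h3 : (univ.filter fun i => π i = i).card = fixn π := by
    unfold fixn
    rw [Fintype.card_subtype]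
  rw [h3]
  simp
  ring

end signs

variable {q : Bool → ℤ[X]} {L : Type} [Field L] [NumberField L] (r : Roots q L)

/-- the zeros of `q b` and the square roots can be permuted and changed independently -/
def Gen1 (r : Roots q L) (b : Bool) : Prop :=
  ∀ (π : Equiv.Perm (Fin (q b).natDegree)) (ε : Fin (q b).natDegree → ℤˣ), ∃ σ : L ≃ₐ[ℚ] L,
    ∀ i, σ • r.θ b i = r.θ b (π i) ∧ σ • r.s b i = (ε i : ℤ) • r.s b (π i)

/-- the zeros of `q false` and `q true` can be permuted independently -/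
def Gen2 (r : Roots q L) : Prop :=
  ∀ π : (b : Bool) → Equiv.Perm (Fin (q b).natDegree), ∃ σ : L ≃ₐ[ℚ] L,
    ∀ b i, σ • r.θ b i = r.θ b (π b i)

lemma unit_smul_eq {x : 𝓞 L} (hx : x ≠ 0) {a b : ℤˣ} (h : (a : ℤ) • x = (b : ℤ) • x) : a = b := by
  have h1 : ((a : ℤ) - b) • x = 0 := by rw [sub_smul, h, sub_self]
  rcases smul_eq_zero.1 h1 with h2 | h2
  · exact Units.ext (sub_eq_zero.1 h2)
  · exact absurd h2 hx

section G1

variable {r} {b : Bool}

/-- `σ` acts on the zeros and the square roots as the signed permutation `t` -/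
def R1 (r : Roots q L) (b : Bool) (σ : L ≃ₐ[ℚ] L)
    (t : Equiv.Perm (Fin (q b).natDegree) × (Fin (q b).natDegree → ℤˣ)) : Prop :=
  ∀ i, σ • r.θ b i = r.θ b (t.1 i) ∧ σ • r.s b i = (t.2 i : ℤ) • r.s b (t.1 i)

lemma R1_ex (σ : L ≃ₐ[ℚ] L) : ∃ t, R1 r b σ t := by
  have h1 := r.exists_smul b σ
  choose f hf using h1
  have hinj : Function.Injective f := by
    intro i j hij
    have h2 : σ • r.θ b i = σ • r.θ b j := by rw [hf, hf, hij]
    exact r.inj b ((smul_left_cancel_iff σ).1 h2)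
  have h2 : ∀ i, ∃ e : ℤˣ, σ • r.s b i = (e : ℤ) • r.s b (f i) := by
    intro i
    rcases r.smul_s b σ (hf i) with h | h
    · exact ⟨1, by rw [h]; simp⟩
    · exact ⟨-1, by rw [h]; simp⟩
  choose e he using h2
  exact ⟨⟨Equiv.ofBijective f (Finite.injective_iff_bijective.1 hinj), e⟩, fun i => ⟨hf i, he i⟩⟩

lemma R1_uniq (σ : L ≃ₐ[ℚ] L) (t t' : Equiv.Perm (Fin (q b).natDegree) ×
    (Fin (q b).natDegree → ℤˣ)) (h : R1 r b σ t) (h' : R1 r b σ t') : t = t' := by
  have h1 : t.1 = t'.1 := Equiv.ext fun i => r.inj b (by rw [← (h i).1, ← (h' i).1])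
  refine Prod.ext h1 (funext fun i => ?_)
  apply unit_smul_eq (r.ne b (t.1 i))
  rw [← (h i).2, (h' i).2, h1]

lemma R1_left (τ σ σ' : L ≃ₐ[ℚ] L) (t t' : Equiv.Perm (Fin (q b).natDegree) ×
    (Fin (q b).natDegree → ℤˣ)) (h : R1 r b σ t) (h' : R1 r b σ' t) (h2 : R1 r b (τ * σ) t') :
    R1 r b (τ * σ') t' := by
  intro i
  rw [mul_smul, mul_smul, (h' i).1, (h' i).2, ← (h i).1, ← (h i).2, ← mul_smul, ← mul_smul]
  exact h2 i

variable [IsGalois ℚ L]

open Classical in
lemma mean_R1 (hG : Gen1 r b) (φ : (L ≃ₐ[ℚ] L) → ℝ) (e : ℤˣ)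
    (hφ : ∀ σ, φ σ = if ∃ i, σ • r.θ b i = r.θ b i ∧ σ • r.s b i = (e : ℤ) • r.s b i then 1 else 0) :
    mean φ = pm (q b).natDegree (fun F => 1 - (1 / 2 : ℝ) ^ F) := by
  classical
  unfold mean
  rw [mean_fiber (R1 r b) R1_ex (fun t => hG t.1 t.2) R1_uniq R1_left φ
    (fun t => if ∃ i, t.1 i = i ∧ t.2 i = e then 1 else 0)]
  · rw [Fintype.sum_prod_type]
    simp only
    rw [sum_congr rfl fun π _ => sum_signs π e]
    unfold pm
    rw [← mul_sum, Fintype.card_prod, Fintype.card_perm, Fintype.card_fun, Fintype.card_fin,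
      Fintype.card_units_int]
    push_cast
    rw [mul_comm ((Nat.factorial _ : ℕ) : ℝ), mul_div_mul_left _ _ (by positivity)]
  · intro σ t ht
    rw [hφ]
    congr 1
    apply propext
    apply exists_congr
    intro i
    rw [(ht i).1, (ht i).2]
    constructor
    · rintro ⟨h1, h2⟩
      have h3 : t.1 i = i := r.inj b h1
      rw [h3] at h2
      exact ⟨h3, unit_smul_eq (r.ne b i) h2⟩
    · rintro ⟨h1, h2⟩
      rw [h1, h2]
      exact ⟨rfl, rfl⟩

lemma mean_gP (hG : Gen1 r b) : mean (gP r b) = pm (q b).natDegree (fun F => 1 - (1 / 2 : ℝ) ^ F) := by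
  classical
  apply mean_R1 hG _ 1
  intro σ
  unfold gP
  simp

lemma mean_gM (hG : Gen1 r b) : mean (gM r b) = pm (q b).natDegree (fun F => 1 - (1 / 2 : ℝ) ^ F) := by
  classical
  apply mean_R1 hG _ (-1)
  intro σ
  unfold gM
  congr 1
  apply propext
  apply exists_congr
  intro i
  apply and_congr_right
  intro h1
  have h0 : -r.s b i ≠ r.s b i := by
    intro h
    have h2 : (2 : 𝓞 L) * r.s b i = 0 := by
      have := congrArg (fun y => r.s b i + y) h
      simp only [add_neg_cancel] at this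
      rw [two_mul]
      exact this.symm
    rcases mul_eq_zero.1 h2 with h3 | h3
    · exact two_ne_zero h3
    · exact r.ne b i h3
  rcases r.smul_s b σ h1 with h2 | h2
  · rw [h2]
    simp only [Units.val_neg, Units.val_one, neg_smul, one_smul]
    exact ⟨fun h => absurd rfl h, fun h => absurd h.symm h0⟩
  · rw [h2]
    simp only [Units.val_neg, Units.val_one, neg_smul, one_smul]
    exact ⟨fun _ => trivial, fun _ => h0⟩

lemma κE_le (hG : ∀ b, Gen1 r b) (hn : ∀ b, 2 ≤ (q b).natDegree) : κE r ≤ 19 / 24 := by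
  unfold κE
  rw [Fintype.sum_bool, mean_gP (hG true), mean_gM (hG true), mean_gP (hG false),
    mean_gM (hG false)]
  have h1 := pm_half (hn true)
  have h2 := pm_half (hn false)
  linarith

end G1

section G2

variable {r}

/-- `σ` acts on the zeros as the permutation `t` -/
def R2 (r : Roots q L) (σ : L ≃ₐ[ℚ] L)
    (t : (b : Bool) → Equiv.Perm (Fin (q b).natDegree)) : Prop :=
  ∀ b i, σ • r.θ b i = r.θ b (t b i)

lemma R2_ex (σ : L ≃ₐ[ℚ] L) : ∃ t, R2 r σ t := by
  have h : ∀ b, ∃ t, R1 r b σ t := fun b => R1_ex σ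
  choose t ht using h
  exact ⟨fun b => (t b).1, fun b i => (ht b i).1⟩

lemma R2_uniq (σ : L ≃ₐ[ℚ] L) (t t' : (b : Bool) → Equiv.Perm (Fin (q b).natDegree))
    (h : R2 r σ t) (h' : R2 r σ t') : t = t' :=
  funext fun b => Equiv.ext fun i => r.inj b (by rw [← h b i, ← h' b i])

lemma R2_left (τ σ σ' : L ≃ₐ[ℚ] L) (t t' : (b : Bool) → Equiv.Perm (Fin (q b).natDegree))
    (h : R2 r σ t) (h' : R2 r σ' t) (h2 : R2 r (τ * σ) t') : R2 r (τ * σ') t' := by
  intro b i
  rw [mul_smul, h' b i, ← h b i, ← mul_smul]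
  exact h2 b i

variable [IsGalois ℚ L]

lemma mean_gA (hG : Gen2 r) : mean (gA r) =
    1 - ∏ b, pm (q b).natDegree (fun F => if F = 0 then 1 else 0) := by
  classical
  have h1 : mean (gA r) = (∑ t : (b : Bool) → Equiv.Perm (Fin (q b).natDegree),
      (1 - ∏ b, (if fixn (t b) = 0 then (1 : ℝ) else 0))) /
        Fintype.card ((b : Bool) → Equiv.Perm (Fin (q b).natDegree)) := by
    unfold mean
    apply mean_fiber (R2 r) R2_ex hG R2_uniq R2_left
    intro σ t ht
    unfold gA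
    have h2 : (∃ b i, σ • r.θ b i = r.θ b i) ↔ ∃ b, fixn (t b) ≠ 0 := by
      apply exists_congr
      intro b
      unfold fixn
      rw [Ne, Fintype.card_eq_zero_iff, not_isEmpty_iff, nonempty_subtype]
      apply exists_congr
      intro i
      rw [ht b i]
      exact ⟨fun h => r.inj b h, fun h => by rw [h]⟩
    split_ifs with h3
    · obtain ⟨b, hb⟩ := h2.1 h3
      rw [prod_eq_zero (mem_univ b), sub_zero]
      rw [if_neg hb]
    · rw [prod_eq_one, sub_self]
      intro b _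
      rw [if_pos]
      by_contra hb
      exact h3 (h2.2 ⟨b, hb⟩)
  have h2 : (∑ t : (b : Bool) → Equiv.Perm (Fin (q b).natDegree),
      ∏ b, (if fixn (t b) = 0 then (1 : ℝ) else 0)) =
        ∏ b, ∑ π : Equiv.Perm (Fin (q b).natDegree), (if fixn π = 0 then (1 : ℝ) else 0) := by
    rw [prod_univ_sum, Fintype.piFinset_univ]
  have h3 : (Fintype.card ((b : Bool) → Equiv.Perm (Fin (q b).natDegree)) : ℝ) =
      ∏ b, ((q b).natDegree.factorial : ℝ) := by
    rw [Fintype.card_pi]
    push_cast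
    refine prod_congr rfl fun b _ => ?_
    rw [Fintype.card_perm, Fintype.card_fin]
  have h4 : (∏ b, ((q b).natDegree.factorial : ℝ)) ≠ 0 :=
    prod_ne_zero_iff.2 fun b _ => (fact_pos' _).ne'
  rw [h1, sum_sub_distrib, h2, h3]
  unfold pm
  rw [prod_div_distrib, sub_div]
  congr 1
  rw [sum_const, card_univ, nsmul_eq_mul, mul_one, h3, div_self h4]

lemma pm_zero_nonneg (n : ℕ) : 0 ≤ pm n (fun F => if F = 0 then 1 else 0) := by
  unfold pm
  apply div_nonneg
  · refine sum_nonneg fun π _ => ?_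
    dsimp only
    split_ifs <;> norm_num
  · exact (fact_pos' n).le

lemma mean_gA_ge (hG : Gen2 r) (hn : ∀ b, 2 ≤ (q b).natDegree)
    (h4 : ∃ b, 4 ≤ (q b).natDegree) : 13 / 16 ≤ mean (gA r) := by
  rw [mean_gA hG, Fintype.prod_bool]
  have h1 := pm_zero_two (hn false)
  have h2 := pm_zero_two (hn true)
  have h3 := pm_zero_nonneg (q false).natDegree
  have h5 := pm_zero_nonneg (q true).natDegree
  obtain ⟨b, hb⟩ := h4
  cases b
  · have h6 := pm_zero_four hb
    nlinarith
  · have h6 := pm_zero_four hb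
    nlinarith

lemma gR_lt (hG : Gen2 r) (hn : ∀ b, 2 ≤ (q b).natDegree) (b : Bool) :
    mean (gR r b) < mean (gA r) := by
  classical
  unfold mean
  have hc : (0 : ℝ) < Fintype.card (L ≃ₐ[ℚ] L) := by exact_mod_cast Fintype.card_pos
  apply div_lt_div_of_pos_right _ hc
  have hle : ∀ σ, gR r b σ ≤ gA r σ := by
    intro σ
    unfold gR gA
    split_ifs with h1 h2 h2
    · exact le_rfl
    · exact absurd ⟨b, h1⟩ h2
    · exact zero_le_one
    · exact le_rfl
  apply sum_lt_sum (fun σ _ => hle σ)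
  -- a permutation without fixed points
  have hrot : ∀ n : ℕ, 2 ≤ n → ∃ π : Equiv.Perm (Fin n), ∀ i, π i ≠ i := by
    intro n hn
    obtain ⟨m, rfl⟩ : ∃ m, n = m + 2 := ⟨n - 2, by omega⟩
    refine ⟨finRotate (m + 2), fun i h => ?_⟩
    rw [finRotate_succ_apply] at h
    have h1 : (1 : Fin (m + 2)) = 0 := by
      have := add_eq_left.1 h
      exact this
    exact absurd h1 (by simp)
  choose ρ hρ using fun b => hrot _ (hn b)
  obtain ⟨σ, hσ⟩ := hG (fun c => if c = b then ρ c else 1)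
  refine ⟨σ, mem_univ _, ?_⟩
  unfold gR gA
  rw [if_neg, if_pos]
  · exact zero_lt_one
  · refine ⟨!b, ⟨0, lt_of_lt_of_le two_pos (hn (!b))⟩, ?_⟩
    rw [hσ]
    have : (!b) ≠ b := by cases b <;> simp
    rw [if_neg this]
    rfl
  · rintro ⟨i, hi⟩
    rw [hσ, if_pos rfl] at hi
    exact hρ b i (r.inj b hi)

end G2

/-- **The exponents in the generic case.** -/
theorem exists_kappa [IsGalois ℚ L] (hG1 : ∀ b, Gen1 r b) (hG2 : Gen2 r)
    (hn : ∀ b, 2 ≤ (q b).natDegree) (h4 : ∃ b, 4 ≤ (q b).natDegree) :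
    ∃ κ : ℝ, 0 ≤ κ ∧ κ < mean (gA r) ∧ κE r ≤ κ ∧ ∀ b, mean (gR r b) ≤ κ := by
  refine ⟨max 0 (max (κE r) (max (mean (gR r false)) (mean (gR r true)))), le_max_left _ _, ?_, ?_, ?_⟩
  · have h1 := mean_gA_ge hG2 hn h4
    have h2 := κE_le hG1 hn
    rw [max_lt_iff, max_lt_iff, max_lt_iff]
    refine ⟨by linarith, by linarith, gR_lt hG2 hn false, gR_lt hG2 hn true⟩
  · exact (le_max_left _ _).trans (le_max_right _ _)
  · intro b
    cases b
    · exact (le_max_left _ _).trans ((le_max_right _ _).trans (le_max_right _ _))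
    · exact (le_max_right _ _).trans ((le_max_right _ _).trans (le_max_right _ _))

end Stoll308.GF
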