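import Mathlib
import Pool.Agent.Work.MP_308fa9_nt.GF.Generic

set_option autoImplicit false

/-!
The final assembly.
-/

namespace Stoll308.GF

open Finset NumberField Polynomial MeanSum Stoll308.Cheb Pool.Agent.Work.MP_2b9663_nt

variable {q : Bool → ℤ[X]}

lemma one_le_log' {X : ℕ} (hX : 3 ≤ X) : 1 ≤ Real.log X := by
  rw [← Real.log_exp 1]
  apply Real.log_le_log (Real.exp_pos 1)
  have h1 := Real.exp_one_lt_d9
  have h2 : (3 : ℝ) ≤ X := by exact_mod_cast hX
  linarith

section bez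

lemma clear_den (a : ℚ[X]) : ∃ m : ℤ, m ≠ 0 ∧ ∃ A : ℤ[X], A.map (Int.castRingHom ℚ) = C (m : ℚ) * a := by
  obtain ⟨m, hm, h⟩ := IsLocalization.integerNormalization_spec (nonZeroDivisors ℤ) a
  refine ⟨m, nonZeroDivisors.ne_zero hm, IsLocalization.integerNormalization (nonZeroDivisors ℤ) a,
    ?_⟩
  have e : algebraMap ℤ ℚ = Int.castRingHom ℚ := RingHom.ext_int _ _
  rw [← e, h, zsmul_eq_mul, ← C_eq_intCast]

lemma exists_bez (hsep : ((q false * q true).map (Int.castRingHom ℚ)).Separable) :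
    ∃ N : ℕ, Bez q N := by
  rw [Polynomial.map_mul] at hsep
  obtain ⟨a, b, hab⟩ := hsep.isCoprime
  obtain ⟨m, hm, A, hA⟩ := clear_den a
  obtain ⟨n, hn, B, hB⟩ := clear_den b
  refine ⟨2 * (m * n).natAbs, by positivity, dvd_mul_right _ _,
    C (2 * (m * n).sign * n) * A, C (2 * (m * n).sign * m) * B, ?_⟩
  apply map_injective (Int.castRingHom ℚ) (RingHom.injective_int _)
  rw [Polynomial.map_add, Polynomial.map_mul, Polynomial.map_mul, Polynomial.map_mul,
    Polynomial.map_mul, hA, hB, map_C, map_C, map_C]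
  have h1 : ((2 * (m * n).natAbs : ℕ) : ℤ) = 2 * (m * n).sign * (m * n) := by
    rw [Nat.cast_mul, Int.natCast_natAbs, mul_assoc, Int.sign_mul_self_eq_abs]
    rfl
  rw [h1]
  simp only [eq_intCast, Int.cast_mul, C_mul, Int.cast_ofNat]
  linear_combination (C (2 : ℚ) * C (((m * n).sign : ℤ) : ℚ) * C (m : ℚ) * C (n : ℚ)) * hab

end bez

section roots

variable {L : Type} [Field L] [NumberField L]

lemma map_eq_zero_of {b : Bool} {θ : (b : Bool) → Fin (q b).natDegree → L}
    (hfac : ∀ b, (q b).map (Int.castRingHom L) = ∏ i, (X - C (θ b i))) (i : Fin (q b).natDegree) :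
    aeval (θ b i) (q b) = 0 := by
  rw [aeval_def, show (algebraMap ℤ L) = Int.castRingHom L from RingHom.ext_int _ _, ← eval_map,
    hfac b, eval_prod]
  exact prod_eq_zero (mem_univ i) (by simp)

/-- the data over the ring of integers -/
lemma exists_roots (hmon : ∀ b, (q b).Monic)
    (hsep : ((q false * q true).map (Int.castRingHom ℚ)).Separable)
    {θ s : (b : Bool) → Fin (q b).natDegree → L}
    (hfac : ∀ b, (q b).map (Int.castRingHom L) = ∏ i, (X - C (θ b i)))
    (hs : ∀ b i, s b i ^ 2 = aeval (θ b i) (q !b)) :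
    ∃ r : Roots q L, ∀ b i, ((r.θ b i : 𝓞 L) : L) = θ b i ∧ ((r.s b i : 𝓞 L) : L) = s b i := by
  have hint : ∀ b i, IsIntegral ℤ (θ b i) := by
    intro b i
    refine ⟨q b, hmon b, ?_⟩
    exact map_eq_zero_of hfac i
  have hints : ∀ b i, IsIntegral ℤ (s b i) := by
    intro b i
    have h1 : IsIntegral ℤ (s b i ^ 2) := by
      rw [hs]
      have h4 := aeval_algebraMap_apply L (⟨θ b i, hint b i⟩ : integralClosure ℤ L) (q !b)
      have h5 : (algebraMap (integralClosure ℤ L) L) ⟨θ b i, hint b i⟩ = θ b i := rfl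
      rw [h5] at h4
      rw [h4]
      exact (aeval (⟨θ b i, hint b i⟩ : integralClosure ℤ L) (q !b)).2
    exact h1.of_pow two_pos
  have hsepL : ((q false * q true).map (Int.castRingHom L)).Separable := by
    have h1 := hsep.map (f := algebraMap ℚ L)
    rw [Polynomial.map_map] at h1
    have e : (algebraMap ℚ L).comp (Int.castRingHom ℚ) = Int.castRingHom L := RingHom.ext_int _ _
    rwa [e] at h1
  rw [Polynomial.map_mul] at hsepL
  have hsepb : ∀ b, ((q b).map (Int.castRingHom L)).Separable := by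
    intro b
    cases b
    · exact hsepL.of_mul_left
    · exact hsepL.of_mul_right
  have hinj : ∀ b, Function.Injective (θ b) := by
    intro b
    have h1 := hsepb b
    rw [hfac b] at h1
    exact separable_prod_X_sub_C_iff.1 h1
  have hne : ∀ b i, s b i ≠ 0 := by
    intro b i h0
    have h1 : aeval (θ b i) (q !b) = 0 := by
      rw [← hs, h0]
      ring
    have h2 := map_eq_zero_of hfac i
    obtain ⟨u, v, huv⟩ := hsepL.isCoprime
    have h3 := congrArg (fun p => eval (θ b i) p) huv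
    have e1 : ∀ c, eval (θ b i) ((q c).map (Int.castRingHom L)) = aeval (θ b i) (q c) := by
      intro c
      rw [eval_map, aeval_def, show (algebraMap ℤ L) = Int.castRingHom L from RingHom.ext_int _ _]
    simp only [eval_add, eval_mul, e1, eval_one] at h3
    cases b
    · rw [Bool.not_false] at h1
      rw [h1, h2] at h3
      simp at h3
    · rw [Bool.not_true] at h1
      rw [h1, h2] at h3
      simp at h3
  let θ' : (b : Bool) → Fin (q b).natDegree → 𝓞 L := fun b i => ⟨θ b i, hint b i⟩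
  let s' : (b : Bool) → Fin (q b).natDegree → 𝓞 L := fun b i => ⟨s b i, hints b i⟩
  have hco : ∀ (x : 𝓞 L) (f : ℤ[X]), ((aeval x f : 𝓞 L) : L) = aeval (x : L) f := by
    intro x f
    exact (aeval_algebraMap_apply L x f).symm
  refine ⟨⟨θ', s', ?_, ?_, ?_, ?_⟩, fun b i => ⟨rfl, rfl⟩⟩
  · intro b
    apply map_injective (algebraMap (𝓞 L) L) RingOfIntegers.coe_injective
    rw [Polynomial.map_map, Polynomial.map_prod]
    have e : (algebraMap (𝓞 L) L).comp (Int.castRingHom (𝓞 L)) = Int.castRingHom L :=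
      RingHom.ext_int _ _
    rw [e, hfac b]
    refine prod_congr rfl fun i _ => ?_
    rw [Polynomial.map_sub, map_X, map_C]
    rfl
  · intro b i
    apply RingOfIntegers.ext
    rw [hco]
    exact hs b i
  · intro b i j hij
    apply hinj b
    exact congrArg (fun x : 𝓞 L => (x : L)) hij
  · intro b i h0
    apply hne b i
    have := congrArg (fun x : 𝓞 L => (x : L)) h0
    exact this

end roots

/-- the data in the generic case -/
lemma Generic.exists_data (hmon : ∀ b, (q b).Monic)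
    (hsep : ((q false * q true).map (Int.castRingHom ℚ)).Separable) (hgen : Generic q) :
    ∃ (L : Type) (_ : Field L) (_ : NumberField L) (_ : IsGalois ℚ L) (r : Roots q L),
      (∀ b, Gen1 r b) ∧ Gen2 r := by
  obtain ⟨L, _, _, _, θ, s, hfac, hs, h1, h2⟩ := hgen
  obtain ⟨r, hr⟩ := exists_roots hmon hsep hfac hs
  refine ⟨L, ‹_›, ‹_›, ‹_›, r, ?_, ?_⟩
  · intro b π ε
    obtain ⟨σ, hσ⟩ := h1 b π ε
    refine ⟨σ, fun i => ⟨?_, ?_⟩⟩
    · apply RingOfIntegers.ext
      rw [(hr b (π i)).1, ← (hσ i).1, ← (hr b i).1]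
      rfl
    · apply RingOfIntegers.ext
      have e1 : (((ε i : ℤ) • r.s b (π i) : 𝓞 L) : L) = (ε i : ℤ) * s b (π i) := by
        rw [← (hr b (π i)).2, zsmul_eq_mul]
        simp
      rw [e1, ← (hσ i).2, ← (hr b i).2]
      rfl
  · intro π
    obtain ⟨σ, hσ⟩ := h2 π
    refine ⟨σ, fun b i => ?_⟩
    apply RingOfIntegers.ext
    rw [(hr b (π b i)).1, ← hσ b i, ← (hr b i).1]
    rfl

section means

variable {L : Type} [Field L] [NumberField L] [IsGalois ℚ L] {r : Roots q L}

lemma gR_le (b : Bool) (σ : L ≃ₐ[ℚ] L) : gR r b σ ≤ gP r b σ + gM r b σ := by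
  unfold gR gP gM
  by_cases h : ∃ i, σ • r.θ b i = r.θ b i
  · rw [if_pos h]
    obtain ⟨i, hi⟩ := h
    by_cases h2 : σ • r.s b i = r.s b i
    · rw [if_pos ⟨i, hi, h2⟩]
      split_ifs <;> norm_num
    · rw [if_pos (c := ∃ i, σ • r.θ b i = r.θ b i ∧ σ • r.s b i ≠ r.s b i) ⟨i, hi, h2⟩]
      split_ifs <;> norm_num
  · rw [if_neg h]
    split_ifs <;> norm_num

lemma mean_gR_le (hG : ∀ b, Gen1 r b) (hn : ∀ b, 2 ≤ (q b).natDegree) (b : Bool) :
    mean (gR r b) ≤ 19 / 24 := by
  have h1 : mean (gR r b) ≤ mean (gP r b) + mean (gM r b) := by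
    unfold mean
    rw [← add_div, ← sum_add_distrib]
    apply div_le_div_of_nonneg_right (sum_le_sum fun σ _ => gR_le b σ)
    positivity
  rw [mean_gP (hG b), mean_gM (hG b)] at h1
  have := pm_half (hn b)
  linarith

end means

section els

lemma point_of_hasPoint {t : ℤ} {F : Type*} [Field F] (h : Gen.HasPoint (q false * q true) t F) :
    Nonempty (Point q t F) := by
  rcases h with ⟨x, y, h⟩ | ⟨s, hs⟩
  · refine ⟨.aff x y ?_⟩
    rw [h, Polynomial.map_mul, eval_mul, eval_map, eval_map, aeval_def, aeval_def,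
      show (algebraMap ℤ F) = Int.castRingHom F from RingHom.ext_int _ _]
  · exact ⟨.inf s (by rw [hs]; ring)⟩

lemma els_of_els {t : ℤ} (h : Gen.ELS (q false * q true) t) : ELS q t := by
  obtain ⟨h1, h2⟩ := h
  exact ⟨⟨(point_of_hasPoint h2).some, fun p _ => (point_of_hasPoint (h1 p)).some⟩⟩

lemma finite_els (q : Bool → ℤ[X]) (X : ℕ) : (elsSet q X).Finite :=
  (Set.finite_Icc (-(X : ℤ)) X).subset fun t ht => by
    rw [Set.mem_Icc]
    exact abs_le.1 ht.2.1

open Classical in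
lemma card_els_le (X : ℕ) : ((Icc (-(X : ℤ)) X).filter
    (fun t => Squarefree t ∧ Gen.ELS (q false * q true) t)).card ≤ (elsSet q X).ncard := by
  rw [← Set.ncard_coe_finset]
  apply Set.ncard_le_ncard _ (finite_els q X)
  intro t ht
  rw [coe_filter, Set.mem_setOf_eq, mem_Icc] at ht
  exact ⟨ht.2.1, abs_le.2 ht.1, els_of_els ht.2.2⟩

lemma ncard_bm_eq (X : ℕ) : (bmSet q X).ncard = (bmF q X).card := by
  rw [← Set.ncard_coe_finset]
  congr 1
  ext t
  unfold bmSet bmF
  rw [coe_filter, Set.mem_setOf_eq, Set.mem_setOf_eq, mem_Icc, abs_le]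
  tauto

end els

/-- **The theorem, given the lower bound for the number of everywhere locally soluble twists.** -/
theorem main (hmon : ∀ b, (q b).Monic) (hev : ∀ b, Even (q b).natDegree)
    (hpos : ∀ b, 0 < (q b).natDegree) (hdeg : 6 ≤ (q false).natDegree + (q true).natDegree)
    (hsep : ((q false * q true).map (Int.castRingHom ℚ)).Separable) (hgen : Generic q)
    (hels : ∃ c : ℝ, 0 < c ∧ ∃ X₀ : ℕ, ∀ X : ℕ, X₀ ≤ X →
      c * X / Real.log X * ∏ p ∈ Gen.rootPrimes (q false * q true) X, (1 + 1 / (p : ℝ)) ≤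
        (elsSet q X).ncard)
    {η : ℝ} (hη : 0 < η) :
    ∃ (c C : ℝ) (X₀ : ℕ), 0 < c ∧ 0 < C ∧ ∀ X : ℕ, X₀ ≤ X →
      c * X / Real.log X ^ (3 / 16 : ℝ) ≤ (elsSet q X).ncard ∧
      (bmSet q X).ncard ≤ C * X / Real.log X ^ (5 / 24 - η : ℝ) := by
  obtain ⟨L, _, _, _, r, hG1, hG2⟩ := hgen.exists_data hmon hsep
  obtain ⟨N, hN⟩ := exists_bez hsep
  have hn : ∀ b, 2 ≤ (q b).natDegree := by
    intro b
    obtain ⟨k, hk⟩ := hev b
    have := hpos b
    omega
  have h4 : ∃ b, 4 ≤ (q b).natDegree := by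
    by_contra hcon
    push Not at hcon
    obtain ⟨k, hk⟩ := hev false
    obtain ⟨l, hl⟩ := hev true
    have h1 := hcon false
    have h2 := hcon true
    omega
  have hll : ∀ X : ℕ, 3 ≤ X → 0 ≤ Real.log (Real.log X) := fun X hX =>
    Real.log_nonneg (one_le_log' hX)
  obtain ⟨C₁, hC₁⟩ := mean_wA r
  have hκE := κE_le hG1 hn
  obtain ⟨C, hC, hbm⟩ := bm_le (κ := 19 / 24) hmon hev hN (by norm_num)
    ⟨C₁, fun X hX => (hC₁ X hX).trans (by
      have := mul_le_mul_of_nonneg_right hκE (hll X hX)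
      linarith)⟩
    (fun b => by
      obtain ⟨C₂, hC₂⟩ := mean_iR r b
      refine ⟨C₂, fun X hX => (hC₂ X hX).trans ?_⟩
      have := mul_le_mul_of_nonneg_right (mean_gR_le hG1 hn b) (hll X hX)
      linarith) hη
  obtain ⟨c₀, hc₀, hprod⟩ := prod_root_ge r
  obtain ⟨c₁, hc₁, X₀, hels⟩ := hels
  refine ⟨c₁ * c₀, C, max X₀ 3, by positivity, hC, fun X hX => ⟨?_, ?_⟩⟩
  · have hX3 : 3 ≤ X := (le_max_right _ _).trans hX
    have hL1 : 1 ≤ Real.log X := one_le_log' hX3
    have hL0 : 0 < Real.log X := by linarith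
    refine le_trans ?_ (hels X ((le_max_left _ _).trans hX))
    have h1 : c₀ * Real.log X ^ (13 / 16 : ℝ) ≤
        ∏ p ∈ Gen.rootPrimes (q false * q true) X, (1 + 1 / (p : ℝ)) := by
      refine le_trans ?_ (hprod X hX3)
      apply mul_le_mul_of_nonneg_left _ hc₀.le
      exact Real.rpow_le_rpow_of_exponent_le hL1 (mean_gA_ge hG2 hn h4)
    have h2 : Real.log X ^ (13 / 16 : ℝ) = Real.log X / Real.log X ^ (3 / 16 : ℝ) := by
      rw [eq_div_iff (Real.rpow_pos_of_pos hL0 _).ne', ← Real.rpow_add hL0]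
      norm_num
    calc c₁ * c₀ * X / Real.log X ^ (3 / 16 : ℝ) =
          c₁ * X / Real.log X * (c₀ * Real.log X ^ (13 / 16 : ℝ)) := by
            rw [h2]
            field_simp
      _ ≤ _ := mul_le_mul_of_nonneg_left h1 (by positivity)
  · have hX3 : 3 ≤ X := (le_max_right _ _).trans hX
    have hL1 : 1 ≤ Real.log X := one_le_log' hX3
    have hL0 : 0 < Real.log X := by linarith
    rw [ncard_bm_eq]
    refine (hbm X hX3).trans (le_of_eq ?_)
    rw [show (19 / 24 - 1 + η : ℝ) = -(5 / 24 - η) by ring, Real.rpow_neg hL0.le]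
    ring

end Stoll308.GF
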